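import Pool.Agent.W985.RS.Prog
import Pool.Agent.W985.RG.TepFinal

/-!
# The tree evaluation problem and programs which rarely read the leaves
-/

namespace Pool.Agent.W985.RS

open Pool.Agent.W985.RK (Mt)
open Pool.Agent.W985.RG (NBP reads mem_reads reads_append Var eval BoolRoot node Bp card_bp vadd
  vsum vsum_eq top gad eval_gad gpos gpos_inj gad_diff exists_prime_sq)

/-- Whether a variable of the tree evaluation problem belongs to a leaf. -/
def isLeaf {k : ℕ} : (h : ℕ) → Var k h → Bool
  | 0, _ => true
  | _ + 1, .inl _ => false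
  | h + 1, .inr q => isLeaf h q.2

theorem isLeaf_gpos {k h : ℕ} : ∀ (m : ℕ) (y : Bp m) (v : Var k h),
    isLeaf (h + m) (gpos m y v) = isLeaf h v := by
  intro m
  induction m with
  | zero => intro y v; rfl
  | succ m ih => intro y v; exact ih y.2 v

/-- The heights of the binary trees. -/
def Ht (m : ℕ → ℕ) : ℕ → ℕ
  | 0 => 0
  | h + 1 => Ht m h + m h

section

variable {K : Type} [Field K] {k : ℕ} (code : Option (K × K) → Fin k)
  (dec : Fin k → Option (K × K))

variable {m D : ℕ → ℕ} (e : (i : ℕ) → Bp (m i) ≃ Fin (D i)) (t : (i : ℕ) → Fin (D i) → K)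

theorem gad_inj {h : ℕ} : ∀ (m : ℕ) (f : Option (K × K) → Option (K × K))
    (xs xs' : Bp m → Var k h → Fin k), gad code dec m f xs = gad code dec m f xs' → xs = xs' := by
  intro m
  induction m with
  | zero =>
    intro f xs xs' hx
    funext y
    exact hx
  | succ m ih =>
    intro f xs xs' hx
    have h1 := ih id (fun y => xs (false, y)) (fun y => xs' (false, y)) (by
      funext v
      exact congrFun hx (.inr (false, v)))
    have h2 := ih id (fun y => xs (true, y)) (fun y => xs' (true, y)) (by
      funext v
      exact congrFun hx (.inr (true, v)))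
    funext y
    obtain ⟨b, y⟩ := y
    cases b with
    | false => exact congrFun h1 y
    | true => exact congrFun h2 y

/-- The hard inputs. -/
noncomputable def inst : (h : ℕ) → K → (Lf D h → K) → Var k (Ht m h) → Fin k
  | 0, c, z => fun _ => code (some (z (), c * z ()))
  | h + 1, c, z => gad code dec (m h) (top c) fun y =>
      inst h (t h (e h y)) fun x => z (lf (e h y) x)

/-- The positions of the leaves. -/
def lpos : (h : ℕ) → Lf D h → Var k (Ht m h)
  | 0, _ => ()
  | h + 1, x => gpos (m h) ((e h).symm x.1) (lpos h x.2)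

theorem isLeaf_lpos : ∀ (h : ℕ) (x : Lf D h), isLeaf (k := k) (Ht m h) (lpos e h x) = true := by
  intro h
  induction h with
  | zero => intro x; rfl
  | succ h ih => intro x; exact (isLeaf_gpos _ _ _).trans (ih _)

theorem lpos_inj : ∀ (h : ℕ) (x x' : Lf D h), lpos (k := k) e h x = lpos e h x' → x = x' := by
  intro h
  induction h with
  | zero => intro x x' _; rfl
  | succ h ih =>
    rintro ⟨i, x⟩ ⟨i', x'⟩ hx
    obtain ⟨h1, h2⟩ := gpos_inj (m h) _ _ _ _ hx
    exact Prod.ext ((e h).symm.injective h1) (ih _ _ h2)

theorem inst_diff : ∀ (h : ℕ) (c : K) (z z' : Lf D h → K) (i : Var k (Ht m h)),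
    inst code dec e t h c z i ≠ inst code dec e t h c z' i → ∃ x, i = lpos e h x ∧ z x ≠ z' x := by
  intro h
  induction h with
  | zero =>
    intro c z z' i hi
    refine ⟨(), rfl, fun hz => hi ?_⟩
    show code (some (z (), c * z ())) = code (some (z' (), c * z' ()))
    rw [hz]
  | succ h ih =>
    intro c z z' i hi
    obtain ⟨y, v, h1, h2⟩ := gad_diff code dec (m h) _ _ _ i hi
    obtain ⟨x, h3, h4⟩ := ih _ _ _ v h2
    refine ⟨lf (e h y) x, ?_, h4⟩
    rw [h1, h3]
    show gpos (m h) y _ = gpos (m h) ((e h).symm (e h y)) _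
    rw [Equiv.symm_apply_apply]
    rfl

theorem inst_inj (hcode : Function.Injective code) : ∀ (h : ℕ) (c : K) (z z' : Lf D h → K),
    inst code dec e t h c z = inst code dec e t h c z' → z = z' := by
  intro h
  induction h with
  | zero =>
    intro c z z' hz
    have h1 := hcode (congrFun hz ())
    have h2 : z () = z' () := (Prod.mk.inj (Option.some.inj h1)).1
    funext x
    exact h2
  | succ h ih =>
    intro c z z' hz
    have h1 := gad_inj code dec (m h) _ _ _ hz
    funext x
    obtain ⟨i, y, rfl⟩ := Lf.cases' x
    have h2 := ih _ _ _ (congrFun h1 ((e h).symm i))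
    have h3 := congrFun h2 y
    rwa [Equiv.apply_symm_apply] at h3

open Classical in
theorem eval_inst (hdec : ∀ v, dec (code v) = v) (hm : ∀ i, m i ≠ 0) : ∀ (h : ℕ) (c : K)
    (z : Lf D h → K), eval (Ht m h) (inst code dec e t h c z) =
      code (if Chk t h z then some (sm z, c * sm z) else none) := by
  intro h
  induction h with
  | zero =>
    intro c z
    show code (some (z (), c * z ())) = _
    have h1 : sm z = z () := Finset.sum_singleton (fun x : Unit => z x) ()
    rw [h1, if_pos]
    exact trivial
  | succ h ih =>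
    intro c z
    obtain ⟨m', hm'⟩ := Nat.exists_eq_succ_of_ne_zero (hm h)
    have hg : ∀ (mm : ℕ) (_ : mm ≠ 0) (f : Option (K × K) → Option (K × K))
        (xs : Bp mm → Var k (Ht m h) → Fin k) (u : Bp mm → Option (K × K)),
        (∀ y, eval (Ht m h) (xs y) = code (u y)) →
        eval (Ht m h + mm) (gad code dec mm f xs) = code (f (vsum mm u)) := by
      intro mm hmm f xs u hu
      cases mm with
      | zero => exact absurd rfl hmm
      | succ mm => exact eval_gad code dec hdec mm f xs u hu
    refine (hg (m h) (hm h) (top c) _ _ fun y => ih (t h (e h y))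
      fun x => z (lf (e h y) x)).trans ?_
    congr 1
    rw [vsum_eq (m h) (fun y => Chk t h fun x => z (lf (e h y) x))
      (fun y => (sm fun x => z (lf (e h y) x), t h (e h y) * sm fun x => z (lf (e h y) x)))]
    have hall : (∀ y, Chk t h fun x => z (lf (e h y) x)) ↔ ∀ i, Chk t h fun x => z (lf i x) := by
      constructor
      · intro hy i
        have := hy ((e h).symm i)
        rwa [Equiv.apply_symm_apply] at this
      · intro hy y
        exact hy _
    have hsum : (∑ y, ((sm fun x => z (lf (e h y) x),
        t h (e h y) * sm fun x => z (lf (e h y) x)) : K × K)) = (sm z, rc t z) := by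
      rw [sm_succ]
      unfold rc
      rw [(e h).sum_comp fun i => ((sm fun x => z (lf i x),
        t h i * sm fun x => z (lf i x)) : K × K)]
      refine Prod.ext ?_ ?_
      · rw [Prod.fst_sum]
      · rw [Prod.snd_sum]
    rw [hsum]
    by_cases h1 : ∀ i, Chk t h fun x => z (lf i x)
    · rw [if_pos (hall.2 h1)]
      show (if rc t z = 0 then some (sm z, c * sm z) else none) = _
      by_cases h2 : rc t z = 0
      · rw [if_pos h2, if_pos]
        exact ⟨h2, h1⟩
      · rw [if_neg h2, if_neg]
        exact fun h => h2 h.1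
    · rw [if_neg (fun h => h1 (hall.1 h)), if_neg (fun h => h1 h.2)]
      rfl

include e in
theorem card_lf : ∀ h : ℕ, Fintype.card (Lf D h) = 2 ^ Ht m h := by
  intro h
  induction h with
  | zero => rfl
  | succ h ih =>
    have e1 : Fintype.card (Lf D (h + 1)) = Fintype.card (Fin (D h) × Lf D h) :=
      Fintype.card_congr (Equiv.refl _)
    have e2 : Fintype.card (Fin (D h)) = 2 ^ m h := by
      rw [← Fintype.card_congr (e h), card_bp]
    rw [e1, Fintype.card_prod, e2, ih]
    show _ = 2 ^ (Ht m h + m h)
    rw [pow_add, mul_comm]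

end

/-- Counting the reads of distinct variables. -/
theorem sum_count {I X : Type} [DecidableEq I] [Fintype X] (f : X → I) (hf : Function.Injective f)
    (q : I → Bool) (hq : ∀ x, q (f x) = true) : ∀ L : List I,
    ∑ x, L.count (f x) ≤ L.countP q := by
  intro L
  induction L with
  | nil => simp
  | cons a L ih =>
    have h1 : ∀ x, (a :: L).count (f x) = L.count (f x) + if a = f x then 1 else 0 := by
      intro x
      rw [List.count_cons]
      congr 1
      by_cases h : a = f x
      · rw [if_pos h, if_pos (by simpa using h)]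
      · rw [if_neg h, if_neg (by simpa using h)]
    simp only [h1]
    rw [Finset.sum_add_distrib, List.countP_cons]
    refine Nat.add_le_add ih ?_
    by_cases h : ∃ x, a = f x
    · obtain ⟨x, rfl⟩ := h
      rw [hq x, if_pos rfl]
      refine le_of_eq ?_
      rw [Finset.sum_eq_single x]
      · exact if_pos rfl
      · intro y _ hy
        exact if_neg fun h => hy (hf h.symm)
      · intro h
        exact absurd (Finset.mem_univ _) h
    · rw [Finset.sum_eq_zero fun x _ => if_neg fun h' => h ⟨x, h'⟩]
      exact Nat.zero_le _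

/-- The program has an accepting walk for the input which reads the leaves at most `r` times on
average. -/
def Cheap {k h S : ℕ} (B : NBP (Var k h) (Fin k) S) (r : ℕ) (x : Var k h → Fin k) : Prop :=
  ∃ l, B.Walk B.start l B.accept ∧ (∀ i a, some (i, a) ∈ l → x i = a) ∧
    (reads l).countP (isLeaf h) ≤ r * 2 ^ h

/-- Most leaves are rarely read. -/
theorem large {I X : Type} [DecidableEq I] [Fintype X] (f : X → I) (hf : Function.Injective f)
    (q : I → Bool) (hq : ∀ x, q (f x) = true) (L : List I) (r : ℕ)
    (hL : L.countP q ≤ r * (2 * Fintype.card X)) :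
    Fintype.card X ≤ 2 * (Finset.univ.filter fun x => L.count (f x) ≤ 4 * r).card := by
  have h1 := (sum_count f hf q hq L).trans hL
  have h2 : (4 * r + 1) * (Finset.univ.filter fun x => ¬L.count (f x) ≤ 4 * r).card ≤
      ∑ x, L.count (f x) := by
    calc _ = ∑ _x ∈ Finset.univ.filter fun x => ¬L.count (f x) ≤ 4 * r, (4 * r + 1) := by
          rw [Finset.sum_const, smul_eq_mul, mul_comm]
      _ ≤ ∑ x ∈ Finset.univ.filter fun x => ¬L.count (f x) ≤ 4 * r, L.count (f x) := by
          refine Finset.sum_le_sum fun x hx => ?_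
          rw [Finset.mem_filter] at hx
          omega
      _ ≤ _ := Finset.sum_le_univ_sum_of_nonneg fun _ => Nat.zero_le _
  have h3 : (Finset.univ.filter fun x => L.count (f x) ≤ 4 * r).card +
      (Finset.univ.filter fun x => ¬L.count (f x) ≤ 4 * r).card = Fintype.card X := by
    rw [Finset.card_filter_add_card_filter_not, Finset.card_univ]
  obtain ⟨b, hb⟩ : ∃ b, b = (Finset.univ.filter fun x => ¬L.count (f x) ≤ 4 * r).card := ⟨_, rfl⟩
  rw [← hb] at h2 h3
  have h4 : (4 * r + 1) * (2 * b) ≤ (4 * r + 1) * Fintype.card X := by nlinarith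
  have h5 : 2 * b ≤ Fintype.card X := Nat.le_of_mul_le_mul_left h4 (by omega)
  omega

end Pool.Agent.W985.RS
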