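import Pool.Agent.W985.RS.Tree

/-!
# Labellings of the leaves which satisfy a check at each inner node
-/

namespace Pool.Agent.W985.RS

variable {D : ℕ → ℕ} {K : Type} [Field K]

/-- The sum of the labels. -/
def sm {h : ℕ} (z : Lf D h → K) : K := ∑ x, z x

/-- The check of the root. -/
def rc (t : (i : ℕ) → Fin (D i) → K) {h : ℕ} (z : Lf D (h + 1) → K) : K :=
  ∑ i, t h i * sm fun x => z (lf i x)

/-- All checks are satisfied. -/
def Chk (t : (i : ℕ) → Fin (D i) → K) : (h : ℕ) → (Lf D h → K) → Prop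
  | 0, _ => True
  | h + 1, z => rc t z = 0 ∧ ∀ i, Chk t h fun x => z (lf i x)

theorem sm_succ {h : ℕ} (z : Lf D (h + 1) → K) : sm z = ∑ i, sm fun x => z (lf i x) :=
  Fintype.sum_prod_type (f := z)

theorem sm_add {h : ℕ} (y z : Lf D h → K) : sm (y + z) = sm y + sm z := Finset.sum_add_distrib

theorem sm_sub {h : ℕ} (y z : Lf D h → K) : sm (y - z) = sm y - sm z := Finset.sum_sub_distrib _ _

theorem sm_smul {h : ℕ} (a : K) (z : Lf D h → K) : sm (a • z) = a * sm z := by
  unfold sm
  rw [Finset.mul_sum]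
  rfl

theorem sm_zero {h : ℕ} : sm (0 : Lf D h → K) = 0 := Finset.sum_const_zero

variable {t : (i : ℕ) → Fin (D i) → K}

theorem rc_add {h : ℕ} (y z : Lf D (h + 1) → K) : rc t (y + z) = rc t y + rc t z := by
  unfold rc
  rw [← Finset.sum_add_distrib]
  refine Finset.sum_congr rfl fun i _ => ?_
  rw [← mul_add, ← sm_add]
  rfl

theorem rc_sub {h : ℕ} (y z : Lf D (h + 1) → K) : rc t (y - z) = rc t y - rc t z := by
  unfold rc
  rw [← Finset.sum_sub_distrib]
  refine Finset.sum_congr rfl fun i _ => ?_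
  rw [← mul_sub, ← sm_sub]
  rfl

theorem rc_smul {h : ℕ} (a : K) (z : Lf D (h + 1) → K) : rc t (a • z) = a * rc t z := by
  unfold rc
  rw [Finset.mul_sum]
  refine Finset.sum_congr rfl fun i _ => ?_
  have : (fun x => (a • z) (lf i x)) = a • fun x => z (lf i x) := rfl
  rw [this, sm_smul]
  ring

theorem Chk.zero : ∀ {h : ℕ}, Chk t h (0 : Lf D h → K) := by
  intro h
  induction h with
  | zero => exact trivial
  | succ h ih =>
    refine ⟨?_, fun i => ih⟩
    unfold rc
    refine Finset.sum_eq_zero fun i _ => ?_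
    have : (fun x => (0 : Lf D (h + 1) → K) (lf i x)) = 0 := rfl
    rw [this, sm_zero, mul_zero]

theorem Chk.add : ∀ {h : ℕ} {y z : Lf D h → K}, Chk t h y → Chk t h z → Chk t h (y + z) := by
  intro h
  induction h with
  | zero => intro y z _ _; exact trivial
  | succ h ih =>
    rintro y z ⟨a1, a2⟩ ⟨b1, b2⟩
    exact ⟨by rw [rc_add, a1, b1, add_zero], fun i => ih (a2 i) (b2 i)⟩

theorem Chk.sub : ∀ {h : ℕ} {y z : Lf D h → K}, Chk t h y → Chk t h z → Chk t h (y - z) := by
  intro h
  induction h with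
  | zero => intro y z _ _; exact trivial
  | succ h ih =>
    rintro y z ⟨a1, a2⟩ ⟨b1, b2⟩
    exact ⟨by rw [rc_sub, a1, b1, sub_zero], fun i => ih (a2 i) (b2 i)⟩

theorem Chk.smul (a : K) : ∀ {h : ℕ} {z : Lf D h → K}, Chk t h z → Chk t h (a • z) := by
  intro h
  induction h with
  | zero => intro z _; exact trivial
  | succ h ih =>
    rintro z ⟨b1, b2⟩
    exact ⟨by rw [rc_smul, b1, mul_zero], fun i => ih (b2 i)⟩

/-- The labelling of one subtree. -/
def put {h : ℕ} (i : Fin (D h)) (g : Lf D h → K) : Lf D (h + 1) → K :=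
  fun x => if x.1 = i then g x.2 else 0

theorem put_same {h : ℕ} (i : Fin (D h)) (g : Lf D h → K) : (fun x => put i g (lf i x)) = g := by
  funext x
  exact if_pos rfl

theorem put_ne {h : ℕ} {i j : Fin (D h)} (hij : j ≠ i) (g : Lf D h → K) :
    (fun x => put i g (lf j x)) = 0 := by
  funext x
  exact if_neg hij

theorem put_lf {h : ℕ} (i j : Fin (D h)) (g : Lf D h → K) (x : Lf D h) :
    put i g (lf j x) = if j = i then g x else 0 := rfl

theorem sm_put {h : ℕ} (i : Fin (D h)) (g : Lf D h → K) : sm (put i g) = sm g := by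
  rw [sm_succ, Finset.sum_eq_single i]
  · rw [put_same]
  · intro j _ hj
    rw [put_ne hj, sm_zero]
  · intro h
    exact absurd (Finset.mem_univ _) h

theorem rc_put {h : ℕ} (i : Fin (D h)) (g : Lf D h → K) : rc t (put i g) = t h i * sm g := by
  unfold rc
  rw [Finset.sum_eq_single i]
  · rw [put_same]
  · intro j _ hj
    rw [put_ne hj, sm_zero, mul_zero]
  · intro h
    exact absurd (Finset.mem_univ _) h

/-- The checks in the subtrees. -/
def Inn (t : (i : ℕ) → Fin (D i) → K) {h : ℕ} (z : Lf D (h + 1) → K) : Prop := ∀ i, Chk t h fun x => z (lf i x)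

theorem Inn.add {h : ℕ} {y z : Lf D (h + 1) → K} (hy : Inn t y) (hz : Inn t z) :
    Inn t (y + z) := fun i => (hy i).add (hz i)

theorem Inn.smul {h : ℕ} (a : K) {z : Lf D (h + 1) → K} (hz : Inn t z) :
    Inn t (a • z) := fun i => (hz i).smul a

theorem Inn.put {h : ℕ} {i : Fin (D h)} {g : Lf D h → K} (hg : Chk t h g) :
    Inn t (put i g) := by
  intro j
  by_cases hj : j = i
  · subst hj
    rw [put_same]
    exact hg
  · rw [put_ne hj]
    exact Chk.zero

/-- Each value is the sum of some labelling of a large set of leaves. -/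
theorem transmit (ht : ∀ i, Function.Injective (t i)) : ∀ {h : ℕ} {Q : Set (Lf D h)}, Lg 2 h Q → ∀ s : K,
    ∃ g : Lf D h → K, Chk t h g ∧ sm g = s ∧ ∀ x, x ∉ Q → g x = 0 := by
  intro h
  induction h with
  | zero =>
    intro Q hQ s
    refine ⟨fun _ => s, trivial, ?_, fun x hx => absurd hQ hx⟩
    show ∑ _x : Unit, s = s
    simp
  | succ h ih =>
    rintro Q ⟨c, hc, hQ⟩ s
    obtain ⟨i, hi, j, hj, hij⟩ := Finset.one_lt_card.1 (show 1 < c.card by omega)
    have hne : t h i - t h j ≠ 0 := sub_ne_zero.2 fun hh => hij (ht _ hh)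
    obtain ⟨g1, a1, a2, a3⟩ := ih (hQ i hi) (-(t h j * s / (t h i - t h j)))
    obtain ⟨g2, b1, b2, b3⟩ := ih (hQ j hj) (t h i * s / (t h i - t h j))
    refine ⟨put i g1 + put j g2, ⟨?_, (Inn.put a1).add (Inn.put b1)⟩, ?_, ?_⟩
    · rw [rc_add, rc_put, rc_put, a2, b2]
      field_simp
      ring
    · rw [sm_add, sm_put, sm_put, a2, b2]
      field_simp
      ring
    · intro x hx
      obtain ⟨l, y, rfl⟩ := Lf.cases' x
      show put i g1 (lf l y) + put j g2 (lf l y) = 0
      rw [put_lf, put_lf]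
      split_ifs with h1 h2 h2
      · exact absurd (h1.symm.trans h2) hij
      · subst h1
        rw [a3 y hx, add_zero]
      · subst h2
        rw [b3 y hx, zero_add]
      · exact add_zero _

open Classical in
/-- The part of a labelling on a set of leaves. -/
noncomputable def on {h : ℕ} (A : Set (Lf D h)) (z : Lf D h → K) : Lf D h → K :=
  fun x => if x ∈ A then z x else 0

theorem on_pos {h : ℕ} {A : Set (Lf D h)} {x : Lf D h} (hx : x ∈ A) (z : Lf D h → K) :
    on A z x = z x := if_pos hx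

theorem on_neg {h : ℕ} {A : Set (Lf D h)} {x : Lf D h} (hx : x ∉ A) (z : Lf D h → K) :
    on A z x = 0 := if_neg hx

/-- There are `r` independent codewords with support in `A ∪ B`, modulo the codewords which are sums
of codewords with support in `A` and in `B`. -/
def Ind (t : (i : ℕ) → Fin (D i) → K) {h : ℕ} (r : ℕ) (A B : Set (Lf D h)) : Prop :=
  ∃ φ : (Fin r → K) → Lf D h → K, (∀ c c', φ (c - c') = φ c - φ c') ∧
    (∀ c, Chk t h (φ c) ∧ sm (φ c) = 0) ∧ (∀ c x, x ∉ A → x ∉ B → φ c x = 0) ∧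
    ∀ c, Chk t h (on A (φ c)) → c = 0

theorem Ind.zero {h : ℕ} : Ind t 0 (∅ : Set (Lf D h)) ∅ := by
  refine ⟨fun _ => 0, fun c c' => (sub_zero _).symm, fun c => ⟨Chk.zero, sm_zero⟩,
    fun c x _ _ => rfl, fun c _ => ?_⟩
  exact Subsingleton.elim _ _

/-- The copy of a set of leaves in a subtree. -/
def cp {h : ℕ} (i : Fin (D h)) (A : Set (Lf D h)) : Set (Lf D (h + 1)) := {x | x.1 = i ∧ x.2 ∈ A}

theorem mem_cp {h : ℕ} {i j : Fin (D h)} {A : Set (Lf D h)} {x : Lf D h} :
    lf j x ∈ cp i A ↔ j = i ∧ x ∈ A := Iff.rfl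

theorem Ind.lift {h r : ℕ} {A B : Set (Lf D h)} (i : Fin (D h)) (hI : Ind t r A B) :
    Ind t r (cp i A) (cp i B) := by
  classical
  obtain ⟨φ, h1, h2, h3, h4⟩ := hI
  refine ⟨fun c => put i (φ c), fun c c' => ?_, fun c => ⟨⟨?_, Inn.put (h2 c).1⟩, ?_⟩,
    fun c x hA hB => ?_, fun c hc => ?_⟩
  · funext x
    obtain ⟨l, y, rfl⟩ := Lf.cases' x
    show put i (φ (c - c')) (lf l y) = put i (φ c) (lf l y) - put i (φ c') (lf l y)
    rw [put_lf, put_lf, put_lf, h1]
    split_ifs
    · rfl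
    · exact (sub_zero _).symm
  · rw [rc_put, (h2 c).2, mul_zero]
  · rw [sm_put]
    exact (h2 c).2
  · obtain ⟨l, y, rfl⟩ := Lf.cases' x
    show put i (φ c) (lf l y) = 0
    rw [put_lf]
    split_ifs with hl
    · subst hl
      exact h3 c y (fun hy => hA ⟨rfl, hy⟩) fun hy => hB ⟨rfl, hy⟩
    · rfl
  · refine h4 c ?_
    have := hc.2 i
    convert this using 1
    funext y
    by_cases hy : y ∈ A
    · rw [on_pos hy, on_pos (show lf i y ∈ cp i A from ⟨rfl, hy⟩)]
      exact (if_pos rfl).symm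
    · rw [on_neg hy, on_neg]
      exact fun h => hy h.2

theorem Ind.step (ht : ∀ i, Function.Injective (t i)) {h r : ℕ} {A B : Set (Lf D h)} {i1 i2 m i3 i4 : Fin (D h)}
    (h12 : i1 ≠ i2) (h1m : i1 ≠ m) (h2m : i2 ≠ m) (h34 : i3 ≠ i4) (h3m : i3 ≠ m) (h4m : i4 ≠ m)
    (h13 : i1 ≠ i3) (h14 : i1 ≠ i4) (h23 : i2 ≠ i3) (h24 : i2 ≠ i4)
    {Q1 Q2 Q3 Q4 : Set (Lf D h)} (hQ1 : Lg 2 h Q1) (hQ2 : Lg 2 h Q2) (hQ3 : Lg 2 h Q3)
    (hQ4 : Lg 2 h Q4) (hI : Ind t r A B) :
    Ind t (r + 1) (cp m A ∪ (cp i1 Q1 ∪ cp i2 Q2)) (cp m B ∪ (cp i3 Q3 ∪ cp i4 Q4)) := by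
  classical
  obtain ⟨φ, h1, h2, h3, h4⟩ := hI
  have n12 : t h i1 - t h i2 ≠ 0 := sub_ne_zero.2 fun hh => h12 (ht _ hh)
  have n34 : t h i3 - t h i4 ≠ 0 := sub_ne_zero.2 fun hh => h34 (ht _ hh)
  obtain ⟨g1, a1, b1, c1⟩ := transmit ht hQ1 (1 / (t h i1 - t h i2))
  obtain ⟨g2, a2, b2, c2⟩ := transmit ht hQ2 (-(1 / (t h i1 - t h i2)))
  obtain ⟨g3, a3, b3, c3⟩ := transmit ht hQ3 (-(1 / (t h i3 - t h i4)))
  obtain ⟨g4, a4, b4, c4⟩ := transmit ht hQ4 (1 / (t h i3 - t h i4))
  obtain ⟨wA, hwA⟩ : ∃ w, w = put i1 g1 + put i2 g2 := ⟨_, rfl⟩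
  obtain ⟨wB, hwB⟩ : ∃ w, w = put i3 g3 + put i4 g4 := ⟨_, rfl⟩
  have rA : rc t wA = 1 := by
    rw [hwA, rc_add, rc_put, rc_put, b1, b2]
    field_simp
    ring
  have rB : rc t wB = -1 := by
    rw [hwB, rc_add, rc_put, rc_put, b3, b4]
    field_simp
    ring
  have sA : sm wA = 0 := by
    rw [hwA, sm_add, sm_put, sm_put, b1, b2]
    ring
  have sB : sm wB = 0 := by
    rw [hwB, sm_add, sm_put, sm_put, b3, b4]
    ring
  have nA : Inn t wA := by rw [hwA]; exact (Inn.put a1).add (Inn.put a2)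
  have nB : Inn t wB := by rw [hwB]; exact (Inn.put a3).add (Inn.put a4)
  refine ⟨fun c => put m (φ (Fin.tail c)) + c 0 • (wA + wB), fun c c' => ?_,
    fun c => ⟨⟨?_, (Inn.put (h2 _).1).add ((nA.add nB).smul _)⟩, ?_⟩, fun c x hA hB => ?_,
    fun c hc => ?_⟩
  · have e1 : Fin.tail (c - c') = Fin.tail c - Fin.tail c' := rfl
    have e2 : put m (φ (Fin.tail c) - φ (Fin.tail c')) =
        put m (φ (Fin.tail c)) - put m (φ (Fin.tail c')) := by
      funext x
      obtain ⟨l, y, rfl⟩ := Lf.cases' x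
      show put m (φ (Fin.tail c) - φ (Fin.tail c')) (lf l y) =
        put m (φ (Fin.tail c)) (lf l y) - put m (φ (Fin.tail c')) (lf l y)
      rw [put_lf, put_lf, put_lf]
      split_ifs
      · rfl
      · exact (sub_zero _).symm
    show put m (φ (Fin.tail (c - c'))) + (c 0 - c' 0) • (wA + wB) = _
    rw [e1, h1, e2, sub_smul]
    exact (add_sub_add_comm _ _ _ _).symm
  · rw [rc_add, rc_put, (h2 _).2, rc_smul, rc_add, rA, rB]
    ring
  · rw [sm_add, sm_put, (h2 _).2, sm_smul, sm_add, sA, sB]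
    ring
  · obtain ⟨l, y, rfl⟩ := Lf.cases' x
    simp only [Set.mem_union, mem_cp, not_or, not_and] at hA hB
    show put m (φ (Fin.tail c)) (lf l y) + c 0 * ((wA : Lf D (h + 1) → K) (lf l y) +
      (wB : Lf D (h + 1) → K) (lf l y)) = 0
    have eA : wA (lf l y) = 0 := by
      rw [hwA]
      show put i1 g1 (lf l y) + put i2 g2 (lf l y) = 0
      rw [put_lf, put_lf]
      split_ifs with e1 e2 e2
      · exact absurd (e1.symm.trans e2) h12
      · rw [c1 y (hA.2.1 e1), add_zero]
      · rw [c2 y (hA.2.2 e2), zero_add]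
      · exact add_zero _
    have eB : wB (lf l y) = 0 := by
      rw [hwB]
      show put i3 g3 (lf l y) + put i4 g4 (lf l y) = 0
      rw [put_lf, put_lf]
      split_ifs with e1 e2 e2
      · exact absurd (e1.symm.trans e2) h34
      · rw [c3 y (hB.2.1 e1), add_zero]
      · rw [c4 y (hB.2.2 e2), zero_add]
      · exact add_zero _
    rw [eA, eB, put_lf]
    split_ifs with e1
    · rw [h3 _ y (hA.1 e1) (hB.1 e1)]
      ring
    · ring
  · -- the part on the first set
    have hon : on (cp m A ∪ (cp i1 Q1 ∪ cp i2 Q2)) (put m (φ (Fin.tail c)) + c 0 • (wA + wB)) =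
        put m (on A (φ (Fin.tail c))) + c 0 • wA := by
      funext x
      obtain ⟨l, y, rfl⟩ := Lf.cases' x
      show on (cp m A ∪ (cp i1 Q1 ∪ cp i2 Q2)) (put m (φ (Fin.tail c)) + c 0 • (wA + wB)) (lf l y) =
        put m (on A (φ (Fin.tail c))) (lf l y) + c 0 * (wA : Lf D (h + 1) → K) (lf l y)
      have fA : wA (lf l y) = (if l = i1 then g1 y else 0) + if l = i2 then g2 y else 0 := by
        rw [hwA]; rfl
      have fB : wB (lf l y) = (if l = i3 then g3 y else 0) + if l = i4 then g4 y else 0 := by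
        rw [hwB]; rfl
      have fC : (put m (φ (Fin.tail c)) + c 0 • (wA + wB)) (lf l y) =
        put m (φ (Fin.tail c)) (lf l y) + c 0 * ((wA : Lf D (h + 1) → K) (lf l y) +
          (wB : Lf D (h + 1) → K) (lf l y)) := rfl
      by_cases e1 : l = i1
      · subst e1
        by_cases hy : y ∈ Q1
        · rw [on_pos (show lf l y ∈ cp m A ∪ (cp l Q1 ∪ cp i2 Q2) from
            Or.inr (Or.inl ⟨rfl, hy⟩)), fC, fA, fB, put_lf, put_lf]
          rw [if_neg h1m, if_pos rfl, if_neg h12, if_neg h13, if_neg h14, if_neg h1m]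
          ring
        · rw [on_neg, fA, put_lf, if_neg h1m, if_pos rfl, if_neg h12, c1 y hy]
          · ring
          · rintro (h | h | h)
            · exact h1m h.1
            · exact hy h.2
            · exact h12 h.1
      · by_cases e2 : l = i2
        · subst e2
          by_cases hy : y ∈ Q2
          · rw [on_pos (show lf l y ∈ cp m A ∪ (cp i1 Q1 ∪ cp l Q2) from
              Or.inr (Or.inr ⟨rfl, hy⟩)), fC, fA, fB, put_lf, put_lf]
            rw [if_neg h2m, if_neg e1, if_pos rfl, if_neg h23, if_neg h24, if_neg h2m]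
            ring
          · rw [on_neg, fA, put_lf, if_neg h2m, if_neg e1, if_pos rfl, c2 y hy]
            · ring
            · rintro (h | h | h)
              · exact h2m h.1
              · exact e1 h.1
              · exact hy h.2
        · by_cases e3 : l = m
          · subst e3
            by_cases hy : y ∈ A
            · rw [on_pos (show lf l y ∈ cp l A ∪ (cp i1 Q1 ∪ cp i2 Q2) from
                Or.inl ⟨rfl, hy⟩), fC, fA, fB, put_lf, put_lf, on_pos hy]
              rw [if_pos rfl, if_neg e1, if_neg e2, if_neg (Ne.symm h3m), if_neg (Ne.symm h4m)]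
              ring
            · rw [on_neg, fA, put_lf, if_pos rfl, on_neg hy, if_neg e1, if_neg e2]
              · ring
              · rintro (h | h | h)
                · exact hy h.2
                · exact e1 h.1
                · exact e2 h.1
          · rw [on_neg, fA, put_lf, if_neg e1, if_neg e2, if_neg e3]
            · ring
            · rintro (h | h | h)
              · exact e3 h.1
              · exact e1 h.1
              · exact e2 h.1
    rw [hon] at hc
    have k1 : Fin.tail c = 0 := by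
      refine h4 _ ?_
      have := hc.2 m
      convert this using 1
      funext y
      show _ = put m (on A (φ (Fin.tail c))) (lf m y) + c 0 * (wA : Lf D (h + 1) → K) (lf m y)
      have fA : wA (lf m y) = (if m = i1 then g1 y else 0) + if m = i2 then g2 y else 0 := by
        rw [hwA]; rfl
      rw [fA, if_neg (Ne.symm h1m), if_neg (Ne.symm h2m), put_lf, if_pos rfl]
      ring
    have k2 : on A (φ (Fin.tail c)) = 0 := by
      have e0 : φ 0 = 0 := by
        have := h1 0 0
        rwa [sub_self, sub_self] at this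
      rw [k1, e0]
      funext y
      by_cases hy : y ∈ A
      · exact on_pos hy _
      · exact on_neg hy _
    have k3 := hc.1
    rw [rc_add, rc_put, k2, sm_zero, mul_zero, zero_add, rc_smul, rA, mul_one] at k3
    funext j
    induction j using Fin.cases with
    | zero => exact k3
    | succ j => exact congrFun k1 j

end Pool.Agent.W985.RS
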