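import Pool.Agent.W985.RS.TreeLemma
import Pool.Agent.W985.RG.Cuts

/-!
# Programs which rarely read the leaves
-/

namespace Pool.Agent.W985.RS

open Pool.Agent.W985.RK (Mt sorting)
open Pool.Agent.W985.RG (NBP reads mem_reads reads_append)

/-- **The cuts.** -/
theorem cuts {X : Type} [Fintype X] {k : ℕ} (p : X → Fin k → ℕ) {M : Mt k} {A B : Set X}
    (hAB : ∀ x ∈ A, ∀ y ∈ B, ∀ a b, compare (p x a) (p y b) = M a b) (T : ℕ) :
    ∃ τ : Fin (k * 4 + 1 + 1) → ℕ, Monotone τ ∧ τ 0 = 0 ∧
      τ (Fin.last (k * 4 + 1)) = T ∧ (∀ j, τ j ≤ T) ∧ ∀ (j : Fin (k * 4 + 1)), ∀ x ∈ A, ∀ y ∈ B,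
        ∀ a b, τ j.castSucc < p x a → p x a ≤ τ j.succ → τ j.castSucc < p y b →
          p y b ≤ τ j.succ → τ j.succ = τ j.castSucc + 1 := by
  classical
  obtain ⟨MA, hMA⟩ : ∃ MA : Fin k → ℕ, MA = fun a => (Finset.univ.filter (· ∈ A)).sup
    fun x => p x a := ⟨_, rfl⟩
  obtain ⟨MB, hMB⟩ : ∃ MB : Fin k → ℕ, MB = fun a => (Finset.univ.filter (· ∈ B)).sup
    fun x => p x a := ⟨_, rfl⟩
  have hA1 : ∀ x ∈ A, ∀ a, p x a ≤ MA a := by
    intro x hx a
    rw [hMA]
    exact Finset.le_sup (f := fun x => p x a) (Finset.mem_filter.2 ⟨Finset.mem_univ _, hx⟩)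
  have hB1 : ∀ x ∈ B, ∀ a, p x a ≤ MB a := by
    intro x hx a
    rw [hMB]
    exact Finset.le_sup (f := fun x => p x a) (Finset.mem_filter.2 ⟨Finset.mem_univ _, hx⟩)
  have hA2 : ∀ a s, (∀ x ∈ A, p x a ≤ s) → MA a ≤ s := by
    intro a s hs
    rw [hMA]
    exact Finset.sup_le fun x hx => hs x (Finset.mem_filter.1 hx).2
  have hB2 : ∀ a s, (∀ x ∈ B, p x a ≤ s) → MB a ≤ s := by
    intro a s hs
    rw [hMB]
    exact Finset.sup_le fun x hx => hs x (Finset.mem_filter.1 hx).2
  obtain ⟨τ, h1, h2, h3, h4, h5⟩ := sorting (ι := Fin 2 ⊕ (Fin k × Fin 4)) (m := k * 4 + 1)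
    (by simp; omega) (Sum.elim ![0, T] fun q => ![min T (MA q.1), min T (MA q.1 - 1),
      min T (MB q.1), min T (MB q.1 - 1)] q.2) (T := T) ⟨Sum.inl 0, rfl⟩ ⟨Sum.inl 1, rfl⟩ (by
      rintro (i | ⟨a, i⟩)
      · fin_cases i
        · exact Nat.zero_le _
        · exact le_rfl
      · fin_cases i <;> exact min_le_left _ _)
  have c1 : ∀ a, ∃ j, τ j = min T (MA a) := fun a => h5 (Sum.inr (a, 0))
  have c2 : ∀ a, ∃ j, τ j = min T (MA a - 1) := fun a => h5 (Sum.inr (a, 1))
  have c3 : ∀ a, ∃ j, τ j = min T (MB a) := fun a => h5 (Sum.inr (a, 2))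
  refine ⟨τ, h1, h2, h3, h4, fun j x hx y hy a b q1 q2 q3 q4 => ?_⟩
  have hpos : ∀ i : Fin (k * 4 + 1 + 1), τ i ≤ τ j.castSucc ∨ τ j.succ ≤ τ i := by
    intro i
    rcases Nat.lt_or_ge (i : ℕ) ((j : ℕ) + 1) with h | h
    · exact Or.inl (h1 (Fin.le_def.2 (by simpa using Nat.lt_succ_iff.1 h)))
    · exact Or.inr (h1 (Fin.le_def.2 (by simpa using h)))
  have hT1 := h4 j.succ
  have hrel := hAB x hx y hy a b
  cases hM : M a b with
  | lt =>
    exfalso
    have g1 : MA a ≤ p y b - 1 := hA2 a _ fun x' hx' => by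
      have := hAB x' hx' y hy a b
      rw [hM, compare_lt_iff_lt] at this
      omega
    have g2 := hA1 x hx a
    obtain ⟨i, hi⟩ := c1 a
    have g3 : min T (MA a) = MA a := min_eq_right (by omega)
    rw [g3] at hi
    rcases hpos i with g | g <;> omega
  | gt =>
    exfalso
    rw [hM, compare_gt_iff_gt] at hrel
    have g1 : MB b ≤ p x a - 1 := hB2 b _ fun y' hy' => by
      have := hAB x hx y' hy' a b
      rw [hM, compare_gt_iff_gt] at this
      omega
    have g2 := hB1 y hy b
    obtain ⟨i, hi⟩ := c3 b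
    have g3 : min T (MB b) = MB b := min_eq_right (by omega)
    rw [g3] at hi
    rcases hpos i with g | g <;> omega
  | eq =>
    have g1 : MA a ≤ p y b := hA2 a _ fun x' hx' => by
      have := hAB x' hx' y hy a b
      rw [hM, compare_eq_iff_eq] at this
      omega
    have g2 := hA1 x hx a
    rw [hM, compare_eq_iff_eq] at hrel
    obtain ⟨i, hi⟩ := c1 a
    obtain ⟨i', hi'⟩ := c2 a
    have g3 : min T (MA a) = MA a := min_eq_right (by omega)
    have g4 : min T (MA a - 1) = MA a - 1 := min_eq_right (by omega)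
    rw [g3] at hi
    rw [g4] at hi'
    rcases hpos i with g | g <;> rcases hpos i' with g' | g' <;> omega

variable {I Γ : Type} {S h : ℕ} {D : ℕ → ℕ} {K : Type} [Field K]

/-- The times at which a variable is read. -/
theorem times [DecidableEq I] (i : I) : ∀ (l : List (Option (I × Γ))) (m : ℕ),
    (reads l).count i ≤ m → ∃ pt : Fin m → ℕ, ∀ s a, l[s]? = some (some (i, a)) →
      ∃ j, pt j = s + 1 := by
  intro l
  induction l with
  | nil =>
    intro m _
    exact ⟨fun _ => 0, fun s a h => absurd h (by simp)⟩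
  | cons e l ih =>
    intro m hm
    by_cases he : ∃ a, e = some (i, a)
    · obtain ⟨a, rfl⟩ := he
      have h1 : reads (some (i, a) :: l) = i :: reads l := rfl
      rw [h1, List.count_cons_self] at hm
      obtain ⟨m', rfl⟩ := Nat.exists_eq_succ_of_ne_zero (show m ≠ 0 by omega)
      obtain ⟨pt, hpt⟩ := ih m' (by omega)
      refine ⟨Fin.cons 1 fun j => pt j + 1, fun s a' hs => ?_⟩
      cases s with
      | zero => exact ⟨0, rfl⟩
      | succ s =>
        rw [List.getElem?_cons_succ] at hs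
        obtain ⟨j, hj⟩ := hpt s a' hs
        exact ⟨j.succ, by rw [Fin.cons_succ, hj]⟩
    · have h1 : (reads (e :: l)).count i = (reads l).count i := by
        have h2 : reads (e :: l) = reads [e] ++ reads l := reads_append [e] l
        rw [h2, List.count_append]
        have h3 : i ∉ reads [e] := by
          intro h
          obtain ⟨a, ha⟩ := mem_reads.1 h
          exact he ⟨a, (List.mem_singleton.1 ha).symm⟩
        rw [List.count_eq_zero.2 h3, zero_add]
      obtain ⟨pt, hpt⟩ := ih m (by omega)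
      refine ⟨fun j => pt j + 1, fun s a hs => ?_⟩
      cases s with
      | zero =>
        rw [List.getElem?_cons_zero] at hs
        exact absurd ⟨a, Option.some.inj hs⟩ he
      | succ s =>
        rw [List.getElem?_cons_succ] at hs
        obtain ⟨j, hj⟩ := hpt s a hs
        exact ⟨j, by show pt j + 1 = _; rw [hj]⟩

theorem mem_reads_seg {i : I} {l : List (Option (I × Γ))} {a b : ℕ}
    (h : i ∈ reads ((l.take b).drop a)) : ∃ s c, a ≤ s ∧ s < b ∧ l[s]? = some (some (i, c)) := by
  obtain ⟨c, hc⟩ := mem_reads.1 h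
  obtain ⟨s, hs⟩ := List.mem_iff_getElem?.1 hc
  rw [List.getElem?_drop] at hs
  by_cases hb : a + s < b
  · rw [List.getElem?_take_of_lt hb] at hs
    exact ⟨a + s, c, Nat.le_add_right _ _, hb, hs⟩
  · rw [List.getElem?_take_eq_none (by omega)] at hs
    exact absurd hs (by simp)

/-- The leaves which are avoided. -/
def tgt (c : Bool) (A E : Set (Lf D h)) : Set (Lf D h) := if c then E \ A else A

/-- The data of a cut walk: nodes, kinds of the segments and two sets of leaves. -/
abbrev Dt (S : ℕ) (D : ℕ → ℕ) (h m : ℕ) : Type :=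
  (Fin (m + 1) → Fin S) × (Fin m → Bool) × Set (Lf D h) × Set (Lf D h)

/-- The data `d` describe a walk of the labelling `z`. -/
def Has (B : NBP I Γ S) (w : (Lf D h → K) → I → Γ) (pos : Lf D h → I) {m : ℕ}
    (z : Lf D h → K) (d : Dt S D h m) : Prop :=
  d.1 0 = B.start ∧ d.1 (Fin.last m) = B.accept ∧ ∀ j : Fin m, ∃ l,
    B.Walk (d.1 j.castSucc) l (d.1 j.succ) ∧ (∀ i a, some (i, a) ∈ l → w z i = a) ∧
    ∀ y ∈ tgt (d.2.1 j) d.2.2.1 d.2.2.2, pos y ∉ reads l

omit [Field K] in
/-- **Mixing.** -/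
theorem mixing {B : NBP I Γ S} {w : (Lf D h → K) → I → Γ} {pos : Lf D h → I} {m : ℕ}
    (hw : ∀ z z' i, w z i ≠ w z' i → ∃ x, z x ≠ z' x ∧ i = pos x)
    {z z' : Lf D h → K} {d : Dt S D h m} (hz : Has B w pos z d) (hz' : Has B w pos z' d)
    (hzz : ∀ x, x ∉ d.2.2.1 → x ∉ d.2.2.2 → z x = z' x) {y : Lf D h → K}
    (hy1 : ∀ x ∈ d.2.2.1, y x = z x) (hy2 : ∀ x, x ∉ d.2.2.1 → y x = z' x) :
    B.Accepts (w y) := by
  classical
  have key : ∀ j : Fin m, ∃ l, B.Walk (d.1 j.castSucc) l (d.1 j.succ) ∧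
      ∀ i a, some (i, a) ∈ l → w y i = a := by
    intro j
    obtain ⟨l, h1, h2, h3⟩ := hz.2.2 j
    obtain ⟨l', h1', h2', h3'⟩ := hz'.2.2 j
    cases hc : d.2.1 j with
    | true =>
      refine ⟨l, h1, fun i a hi => ?_⟩
      rw [← h2 i a hi]
      by_contra hcon
      obtain ⟨x, hx1, hx2⟩ := hw _ _ _ hcon
      have hi' : i ∈ reads l := mem_reads.2 ⟨a, hi⟩
      have hxA : x ∉ d.2.2.1 := fun hx => hx1 (hy1 x hx)
      have hxE : x ∈ d.2.2.2 := by
        by_contra hx
        exact hx1 ((hy2 x hxA).trans (hzz x hxA hx).symm)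
      refine h3 x ?_ (hx2 ▸ hi')
      rw [hc]
      exact ⟨hxE, hxA⟩
    | false =>
      refine ⟨l', h1', fun i a hi => ?_⟩
      rw [← h2' i a hi]
      by_contra hcon
      obtain ⟨x, hx1, hx2⟩ := hw _ _ _ hcon
      have hi' : i ∈ reads l' := mem_reads.2 ⟨a, hi⟩
      have hxA : x ∈ d.2.2.1 := by
        by_contra hx
        exact hx1 (hy2 x hx)
      refine h3' x ?_ (hx2 ▸ hi')
      rw [hc]
      exact hxA
  have hall : ∀ j : Fin (m + 1), ∃ l, B.Walk B.start l (d.1 j) ∧
      ∀ i a, some (i, a) ∈ l → w y i = a := by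
    intro j
    induction j using Fin.induction with
    | zero =>
      rw [hz.1]
      exact ⟨[], .nil _, fun i a hi => absurd hi List.not_mem_nil⟩
    | succ j ih =>
      obtain ⟨l, h1, h2⟩ := ih
      obtain ⟨l', h1', h2'⟩ := key j
      refine ⟨l ++ l', h1.append h1', fun i a hi => ?_⟩
      rcases List.mem_append.1 hi with hi | hi
      · exact h2 i a hi
      · exact h2' i a hi
  obtain ⟨l, h1, h2⟩ := hall (Fin.last m)
  rw [hz.2.1] at h1
  exact ⟨l, h1, h2⟩

open Classical in
/-- A class of labellings with the same data is small. -/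
theorem class_small [Fintype K] {B : NBP I Γ S} {w : (Lf D h → K) → I → Γ}
    {pos : Lf D h → I} {m H r : ℕ} {t : (i : ℕ) → Fin (D i) → K}
    (hw : ∀ z z' i, w z i ≠ w z' i → ∃ x, z x ≠ z' x ∧ i = pos x)
    (hsound : ∀ z, B.Accepts (w z) → Chk t h z) (d : Dt S D h m) (hr : H ≤ r)
    (hI : Ind t r d.2.2.1 d.2.2.2) :
    (Finset.univ.filter fun z : Lf D h → K => Chk t h z ∧ Has B w pos z d).card *
      Fintype.card K ^ H ≤ (Finset.univ.filter fun z : Lf D h → K => Chk t h z).card := by
  obtain ⟨φ, h1, h2, h3, h4⟩ := hI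
  have hφ : ∀ (z z' : Lf D h → K) (c c' : Fin r → K), z + φ c = z' + φ c' →
      z - z' = φ (c' - c) := by
    intro z z' c c' he
    rw [h1]
    rw [sub_eq_sub_iff_add_eq_add, he, add_comm]
  have hcard : (Finset.univ.filter fun z : Lf D h → K => Chk t h z ∧ Has B w pos z d).card *
      Fintype.card K ^ r ≤ (Finset.univ.filter fun z : Lf D h → K => Chk t h z).card := by
    have e1 : Fintype.card K ^ r = (Finset.univ : Finset (Fin r → K)).card := by
      rw [Finset.card_univ, Fintype.card_fun, Fintype.card_fin]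
    rw [e1, ← Finset.card_product]
    refine Finset.card_le_card_of_injOn (fun q => q.1 + φ q.2) ?_ ?_
    · rintro ⟨z, c⟩ hz
      rw [Finset.mem_coe, Finset.mem_product, Finset.mem_filter] at hz
      rw [Finset.mem_coe, Finset.mem_filter]
      exact ⟨Finset.mem_univ _, hz.1.2.1.add (h2 c).1⟩
    · rintro ⟨z, c⟩ hz ⟨z', c'⟩ hz' he
      rw [Finset.mem_coe, Finset.mem_product, Finset.mem_filter] at hz hz'
      have he' : z + φ c = z' + φ c' := he
      have hd := hφ z z' c c' he'
      have hag : ∀ x, x ∉ d.2.2.1 → x ∉ d.2.2.2 → z x = z' x := by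
        intro x hx hx'
        have := congrFun hd x
        rw [h3 _ x hx hx'] at this
        exact sub_eq_zero.1 this
      have hacc := mixing (y := fun x => if x ∈ d.2.2.1 then z x else z' x) hw hz.1.2.2
        hz'.1.2.2 hag (fun x hx => if_pos hx) (fun x hx => if_neg hx)
      have hchk := (hsound _ hacc).sub hz'.1.2.1
      have hon : ((fun x => if x ∈ d.2.2.1 then z x else z' x) - z') =
          on d.2.2.1 (φ (c' - c)) := by
        rw [← hd]
        funext x
        by_cases hx : x ∈ d.2.2.1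
        · rw [on_pos hx]
          show (if x ∈ d.2.2.1 then z x else z' x) - z' x = z x - z' x
          rw [if_pos hx]
        · rw [on_neg hx]
          show (if x ∈ d.2.2.1 then z x else z' x) - z' x = 0
          rw [if_neg hx, sub_self]
      rw [hon] at hchk
      have hc := h4 _ hchk
      have hc' : c' = c := sub_eq_zero.1 hc
      have hz0 : z = z' := by
        rw [hc'] at he'
        exact add_right_cancel he'
      rw [hz0, hc']
  refine le_trans ?_ hcard
  exact Nat.mul_le_mul_left _ (Nat.pow_le_pow_right Fintype.card_pos hr)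

/-- Some accepting walk of the labelling reads every leaf of a large set at most `k` times. -/
def Good [DecidableEq I] (B : NBP I Γ S) (w : (Lf D h → K) → I → Γ) (pos : Lf D h → I)
    (N k : ℕ) (z : Lf D h → K) : Prop :=
  ∃ l, B.Walk B.start l B.accept ∧ (∀ i a, some (i, a) ∈ l → w z i = a) ∧
    Lg N h {x | (reads l).count (pos x) ≤ k}

/-- Every good labelling has data. -/
theorem exists_data [DecidableEq I] {B : NBP I Γ S} {w : (Lf D h → K) → I → Γ}
    {pos : Lf D h → I} {N k H : ℕ} {t : (i : ℕ) → Fin (D i) → K}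
    (htree : ∀ (p : Lf D h → Fin k → ℕ) (P : Set (Lf D h)), Lg N h P → ∃ (r : ℕ) (M : Mt k)
      (A E : Set (Lf D h)), A ⊆ P ∧ E ⊆ P ∧ H ≤ r ∧ Rel p M A E ∧ Ind t r A E)
    (hpos : Function.Injective pos) (z : Lf D h → K) (hz : Good B w pos N k z) :
    ∃ d : Dt S D h (k * 4 + 1), Has B w pos z d ∧ ∃ r, H ≤ r ∧ Ind t r d.2.2.1 d.2.2.2 := by
  classical
  obtain ⟨l, hl, hlw, hlg⟩ := hz
  obtain ⟨p, hp0, hpT, hp⟩ := hl.nodes
  have hhit : ∀ x : Lf D h, ∃ pt : Fin k → ℕ, (reads l).count (pos x) ≤ k →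
      ∀ s a, l[s]? = some (some (pos x, a)) → ∃ j, pt j = s + 1 := by
    intro x
    by_cases hx : (reads l).count (pos x) ≤ k
    · obtain ⟨pt, hpt⟩ := times (pos x) l k hx
      exact ⟨pt, fun _ => hpt⟩
    · exact ⟨fun _ => 0, fun h => absurd h hx⟩
  choose pt hpt using hhit
  obtain ⟨r, M, A, E, hAP, hEP, hr, hAE, hI⟩ := htree pt _ hlg
  obtain ⟨τ, t1, t2, t3, t4, t5⟩ := cuts pt hAE l.length
  have hle : ∀ j : Fin (k * 4 + 1), τ j.castSucc ≤ τ j.succ := fun j =>
    t1 (Fin.le_def.2 (by simp))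
  have hpt' : ∀ x, (reads l).count (pos x) ≤ k → ∀ a b,
      pos x ∈ reads ((l.take b).drop a) → ∃ j, a < pt x j ∧ pt x j ≤ b := by
    intro x hx a b hm
    obtain ⟨s, c, h1, h2, h3⟩ := mem_reads_seg hm
    obtain ⟨j, hj⟩ := hpt x hx s c h3
    exact ⟨j, by omega, by omega⟩
  -- the kinds of the segments
  have hkind : ∀ j : Fin (k * 4 + 1), ∃ κ : Bool, ∃ l',
      B.Walk (p (τ j.castSucc)) l' (p (τ j.succ)) ∧ (∀ i a, some (i, a) ∈ l' → w z i = a) ∧
      ∀ y ∈ tgt κ A E, pos y ∉ reads l' := by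
    intro j
    have hseg := hp _ _ (hle j) (t4 j.succ)
    have hsegw : ∀ i a, some (i, a) ∈ (l.take (τ j.succ)).drop (τ j.castSucc) → w z i = a :=
      fun i a hi => hlw i a (List.mem_of_mem_take (List.mem_of_mem_drop hi))
    by_cases hE : ∃ y ∈ E, ∃ b, τ j.castSucc < pt y b ∧ pt y b ≤ τ j.succ
    · by_cases hA : ∃ x ∈ A, ∃ a, τ j.castSucc < pt x a ∧ pt x a ≤ τ j.succ
      · obtain ⟨x, hx, a, a1, a2⟩ := hA
        obtain ⟨y, hy, b, b1, b2⟩ := hE
        have hone := t5 j x hx y hy a b a1 a2 b1 b2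
        -- the segment has at most one edge
        have hlen : ((l.take (τ j.succ)).drop (τ j.castSucc)).length ≤ 1 := by
          rw [List.length_drop, List.length_take]
          omega
        have huniq : ∀ i i', i ∈ reads ((l.take (τ j.succ)).drop (τ j.castSucc)) →
            i' ∈ reads ((l.take (τ j.succ)).drop (τ j.castSucc)) → i = i' := by
          generalize (l.take (τ j.succ)).drop (τ j.castSucc) = l0 at hlen
          intro i i' hi hi'
          obtain ⟨c, hc⟩ := mem_reads.1 hi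
          obtain ⟨c', hc'⟩ := mem_reads.1 hi'
          cases l0 with
          | nil => exact absurd hc List.not_mem_nil
          | cons e l0 =>
            have : l0 = [] := by
              rw [List.length_cons] at hlen
              exact List.length_eq_zero_iff.1 (by omega)
            subst this
            rw [List.mem_singleton] at hc hc'
            have := hc.trans hc'.symm
            simp only [Option.some.injEq, Prod.mk.injEq] at this
            exact this.1
        by_cases hbad : ∃ y ∈ E \ A, pos y ∈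
            reads ((l.take (τ j.succ)).drop (τ j.castSucc))
        · obtain ⟨y', hy', hv⟩ := hbad
          refine ⟨false, _, hseg, hsegw, fun x' hx' hv' => ?_⟩
          have hx'' : x' ∈ A := hx'
          have := hpos (huniq _ _ hv hv')
          subst this
          exact hy'.2 hx''
        · refine ⟨true, _, hseg, hsegw, fun y' hy' hv' => ?_⟩
          have hy'' : y' ∈ E \ A := hy'
          exact hbad ⟨y', hy'', hv'⟩
      · refine ⟨false, _, hseg, hsegw, fun x' hx' hmem => ?_⟩
        have hx'' : x' ∈ A := hx'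
        obtain ⟨a, ha⟩ := hpt' x' (hAP hx'') _ _ hmem
        exact hA ⟨x', hx'', a, ha⟩
    · refine ⟨true, _, hseg, hsegw, fun x' hx' hmem => ?_⟩
      have hx'' : x' ∈ E \ A := hx'
      obtain ⟨a, ha⟩ := hpt' x' (hEP hx''.1) _ _ hmem
      exact hE ⟨x', hx''.1, a, ha⟩
  choose κ hκ using hkind
  refine ⟨(fun j => p (τ j), κ, A, E), ⟨?_, ?_, fun j => hκ j⟩, r, hr, hI⟩
  · show p (τ 0) = B.start
    rw [t2, hp0]
  · show p (τ (Fin.last _)) = B.accept
    rw [t3, hpT]

open Classical in
/-- **The lower bound for programs.** -/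
theorem prog_lower [DecidableEq I] [Fintype K] {B : NBP I Γ S} {w : (Lf D h → K) → I → Γ}
    {pos : Lf D h → I} {N k H : ℕ} {t : (i : ℕ) → Fin (D i) → K}
    (htree : ∀ (p : Lf D h → Fin k → ℕ) (P : Set (Lf D h)), Lg N h P → ∃ (r : ℕ) (M : Mt k)
      (A E : Set (Lf D h)), A ⊆ P ∧ E ⊆ P ∧ H ≤ r ∧ Rel p M A E ∧ Ind t r A E)
    (hw : ∀ z z' i, w z i ≠ w z' i → ∃ x, z x ≠ z' x ∧ i = pos x)
    (hpos : Function.Injective pos) (hsound : ∀ z, B.Accepts (w z) → Chk t h z) :
    (Finset.univ.filter fun z : Lf D h → K => Chk t h z ∧ Good B w pos N k z).card *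
      Fintype.card K ^ H ≤ S ^ (k * 4 + 2) * (2 ^ (k * 4 + 1) * (2 ^ Fintype.card (Lf D h) *
        2 ^ Fintype.card (Lf D h))) *
        (Finset.univ.filter fun z : Lf D h → K => Chk t h z).card := by
  have hex : ∀ z : Lf D h → K, ∃ d : Dt S D h (k * 4 + 1), Good B w pos N k z →
      Has B w pos z d ∧ ∃ r, H ≤ r ∧ Ind t r d.2.2.1 d.2.2.2 := by
    intro z
    by_cases hz : Good B w pos N k z
    · obtain ⟨d, hd⟩ := exists_data htree hpos z hz
      exact ⟨d, fun _ => hd⟩
    · refine ⟨(fun _ => B.start, fun _ => true, ∅, ∅), fun h => absurd h hz⟩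
  choose dat hdat using hex
  have hcard : Fintype.card (Dt S D h (k * 4 + 1)) = S ^ (k * 4 + 2) * (2 ^ (k * 4 + 1) *
      (2 ^ Fintype.card (Lf D h) * 2 ^ Fintype.card (Lf D h))) := by
    rw [Fintype.card_prod, Fintype.card_prod, Fintype.card_prod, Fintype.card_fun,
      Fintype.card_fun, Fintype.card_bool, Fintype.card_set,
      Fintype.card_fin, Fintype.card_fin, Fintype.card_fin]
  rw [← hcard]
  have h1 : (Finset.univ.filter fun z : Lf D h → K => Chk t h z ∧ Good B w pos N k z).card =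
      ∑ d : Dt S D h (k * 4 + 1), ((Finset.univ.filter fun z : Lf D h → K =>
        Chk t h z ∧ Good B w pos N k z).filter fun z => dat z = d).card :=
    Finset.card_eq_sum_card_fiberwise fun z _ => Finset.mem_coe.2 (Finset.mem_univ _)
  have h0 : Fintype.card (Dt S D h (k * 4 + 1)) *
      (Finset.univ.filter fun z : Lf D h → K => Chk t h z).card =
      ∑ _d : Dt S D h (k * 4 + 1), (Finset.univ.filter fun z : Lf D h → K => Chk t h z).card := by
    rw [Finset.sum_const, Finset.card_univ, smul_eq_mul]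
  rw [h1, Finset.sum_mul, h0]
  refine Finset.sum_le_sum fun d _ => ?_
  rcases ((Finset.univ.filter fun z : Lf D h → K =>
        Chk t h z ∧ Good B w pos N k z).filter fun z => dat z = d).eq_empty_or_nonempty with h2 | h2
  · rw [h2, Finset.card_empty, zero_mul]
    exact Nat.zero_le _
  · obtain ⟨z0, hz0⟩ := h2
    rw [Finset.mem_filter, Finset.mem_filter] at hz0
    obtain ⟨⟨-, -, hz1⟩, hz2⟩ := hz0
    obtain ⟨-, r, hr, hI⟩ := hdat z0 hz1
    rw [hz2] at hI
    refine le_trans (Nat.mul_le_mul_right _ (Finset.card_le_card ?_))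
      (class_small hw hsound d hr hI)
    intro z hz
    rw [Finset.mem_filter, Finset.mem_filter] at hz
    obtain ⟨⟨-, hz3, hz4⟩, hz5⟩ := hz
    rw [Finset.mem_filter]
    refine ⟨Finset.mem_univ _, hz3, ?_⟩
    rw [← hz5]
    exact (hdat z hz4).1

/-- **Dense sets of leaves are large.** -/
theorem Lg.dense {d X : ℕ} (hd : 1 ≤ d) : ∀ {h : ℕ} (_ : ∀ i < h, X ≤ D i) (P : Set (Lf D h)),
    ¬Lg d h P → ∀ [DecidablePred (· ∈ P)], X * (Finset.univ.filter (· ∈ P)).card ≤
      h * (d - 1) * Fintype.card (Lf D h) := by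
  classical
  intro h
  induction h with
  | zero =>
    intro _ P hP _
    have : (Finset.univ.filter (· ∈ P)) = (∅ : Finset (Lf D 0)) := by
      refine Finset.filter_eq_empty_iff.2 fun x _ hx => hP ?_
      exact hx
    rw [this]
    simp
  | succ h ih =>
    intro hX P hP _
    obtain ⟨s, hs⟩ : ∃ s : Finset (Fin (D h)), s = Finset.univ.filter fun i =>
      Lg d h {x | lf i x ∈ P} := ⟨_, rfl⟩
    have hs1 : s.card ≤ d - 1 := by
      by_contra hcon
      refine hP ⟨s, by omega, fun i hi => ?_⟩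
      rw [hs, Finset.mem_filter] at hi
      exact hi.2
    have h1 : (Finset.univ.filter (· ∈ P)).card =
        ∑ i : Fin (D h), (Finset.univ.filter fun x : Lf D h => lf i x ∈ P).card := by
      have e1 : (Finset.univ.filter (· ∈ P)) = (Finset.univ : Finset (Fin (D h))).biUnion fun i =>
          (Finset.univ.filter fun x : Lf D h => lf i x ∈ P).image fun x => lf i x := by
        ext x
        obtain ⟨i, y, rfl⟩ := Lf.cases' x
        simp only [Finset.mem_filter, Finset.mem_univ, true_and, Finset.mem_biUnion,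
          Finset.mem_image]
        constructor
        · intro hx
          exact ⟨i, y, hx, rfl⟩
        · rintro ⟨i', y', hx, he⟩
          rwa [← he]
      rw [e1, Finset.card_biUnion]
      · refine Finset.sum_congr rfl fun i _ => Finset.card_image_of_injective _ ?_
        intro x y hxy
        exact (lf_inj.1 hxy).2
      · intro i _ j _ hij
        rw [Function.onFun, Finset.disjoint_left]
        intro x hx hx'
        rw [Finset.mem_image] at hx hx'
        obtain ⟨y, -, rfl⟩ := hx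
        obtain ⟨y', -, he⟩ := hx'
        exact hij (lf_inj.1 he).1.symm
    have hcard : Fintype.card (Lf D (h + 1)) = D h * Fintype.card (Lf D h) := by
      have e1 : Fintype.card (Lf D (h + 1)) = Fintype.card (Fin (D h) × Lf D h) :=
        Fintype.card_congr (Equiv.refl _)
      rw [e1, Fintype.card_prod, Fintype.card_fin]
    rw [h1, Finset.mul_sum, hcard]
    have h2 : ∀ i : Fin (D h), X * (Finset.univ.filter fun x : Lf D h => lf i x ∈ P).card ≤
        (if i ∈ s then X * Fintype.card (Lf D h) else 0) + h * (d - 1) * Fintype.card (Lf D h) := by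
      intro i
      by_cases hi : i ∈ s
      · rw [if_pos hi]
        refine le_trans ?_ (Nat.le_add_right _ _)
        exact Nat.mul_le_mul_left _ (Finset.card_le_univ _)
      · rw [if_neg hi, zero_add]
        have hi' : ¬Lg d h {x | lf i x ∈ P} := by
          intro hh
          refine hi ?_
          rw [hs, Finset.mem_filter]
          exact ⟨Finset.mem_univ _, hh⟩
        exact ih (fun i hi => hX i (by omega)) {x | lf i x ∈ P} hi'
    refine (Finset.sum_le_sum fun i _ => h2 i).trans ?_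
    rw [Finset.sum_add_distrib, Finset.sum_const, Finset.card_univ, Fintype.card_fin, smul_eq_mul,
      ← Finset.sum_filter, Finset.sum_const, smul_eq_mul, Finset.filter_mem_eq_inter,
      Finset.univ_inter]
    have h3 : s.card * (X * Fintype.card (Lf D h)) ≤ (d - 1) * (D h * Fintype.card (Lf D h)) :=
      Nat.mul_le_mul hs1 (Nat.mul_le_mul_right _ (hX h (Nat.lt_succ_self h)))
    have h4 : (h + 1) * (d - 1) * (D h * Fintype.card (Lf D h)) =
        (d - 1) * (D h * Fintype.card (Lf D h)) + D h * (h * (d - 1) * Fintype.card (Lf D h)) := by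
      ring
    rw [h4]
    exact Nat.add_le_add_right h3 _

end Pool.Agent.W985.RS
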