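import Pool.Agent.W985.RS.Tep

/-!
# The lower bound for the tree evaluation problem
-/

namespace Pool.Agent.W985.RS

open Pool.Agent.W985.RK (Mt)
open Pool.Agent.W985.RG (NBP reads mem_reads reads_append Var eval BoolRoot node Bp card_bp vadd
  vsum vsum_eq top gad eval_gad gpos gpos_inj gad_diff exists_prime_sq)

/-- The last step of the calculation. -/
theorem arith {G F S M C p k e : ℕ} (hS : 1 ≤ S) (hGF : G ≤ F) (hk : k ≤ 4 * p ^ 2)
    (hp : C * 4 ^ (e * M) * 4 ^ e < p) (hC : 1 ≤ C)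
    (hG : G * p ^ (2 * (e * M) + 2 * e + 1) ≤ S ^ M * C * F) : G * k ^ e ≤ S * F := by
  rcases Nat.lt_or_ge S (k ^ e) with h1 | h1
  · have h2 : S ^ M ≤ 4 ^ (e * M) * p ^ (2 * (e * M)) := by
      calc S ^ M ≤ (k ^ e) ^ M := Nat.pow_le_pow_left h1.le M
        _ = k ^ (e * M) := (pow_mul _ _ _).symm
        _ ≤ (4 * p ^ 2) ^ (e * M) := Nat.pow_le_pow_left hk _
        _ = 4 ^ (e * M) * p ^ (2 * (e * M)) := by rw [mul_pow, ← pow_mul]
    have hp0 : 0 < p := by omega
    have h3 : p ^ (2 * (e * M)) * (G * p ^ (2 * e) * p) ≤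
        p ^ (2 * (e * M)) * (C * 4 ^ (e * M) * F) := by
      calc p ^ (2 * (e * M)) * (G * p ^ (2 * e) * p) = G * p ^ (2 * (e * M) + 2 * e + 1) := by
            rw [pow_succ, pow_add]; ring
        _ ≤ S ^ M * C * F := hG
        _ ≤ (4 ^ (e * M) * p ^ (2 * (e * M))) * C * F :=
            Nat.mul_le_mul_right _ (Nat.mul_le_mul_right _ h2)
        _ = _ := by ring
    have h4 : G * p ^ (2 * e) * p ≤ C * 4 ^ (e * M) * F :=
      Nat.le_of_mul_le_mul_left h3 (Nat.pow_pos hp0)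
    have h5 : (C * 4 ^ (e * M)) * (G * p ^ (2 * e) * 4 ^ e) ≤ (C * 4 ^ (e * M)) * F := by
      refine le_trans ?_ h4
      calc (C * 4 ^ (e * M)) * (G * p ^ (2 * e) * 4 ^ e) =
            G * p ^ (2 * e) * (C * 4 ^ (e * M) * 4 ^ e) := by ring
        _ ≤ G * p ^ (2 * e) * p := Nat.mul_le_mul_left _ hp.le
    have h6 : G * p ^ (2 * e) * 4 ^ e ≤ F :=
      Nat.le_of_mul_le_mul_left h5 (Nat.mul_pos (by omega) (Nat.pow_pos (by norm_num)))
    calc G * k ^ e ≤ G * (4 * p ^ 2) ^ e := Nat.mul_le_mul_left _ (Nat.pow_le_pow_left hk _)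
      _ = G * p ^ (2 * e) * 4 ^ e := by rw [mul_pow, ← pow_mul]; ring
      _ ≤ F := h6
      _ ≤ S * F := Nat.le_mul_of_pos_left _ hS
  · rw [mul_comm S F]
    exact Nat.mul_le_mul hGF h1

open Classical in
/-- **The lower bound for the tree evaluation problem.** -/
theorem tep (r e : ℕ) : ∃ h₀ : ℕ, ∀ h ≥ h₀, ∃ k₀ : ℕ, ∀ k ≥ k₀,
    ∃ Y : Finset (Var k h → Fin k), Y.Nonempty ∧
      (∀ x ∈ Y, BoolRoot h x ∧ (eval h x).val = 1) ∧ ∀ (S : ℕ) (B : NBP (Var k h) (Fin k) S),
        (∀ x, BoolRoot h x → B.Accepts x → (eval h x).val = 1) →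
        (Y.filter fun x => Cheap B r x).card * k ^ e ≤ S * Y.card := by
  obtain ⟨q, hq⟩ : ∃ q, q = 4 * r := ⟨_, rfl⟩
  obtain ⟨M, hM⟩ : ∃ M, M = q * 4 + 2 := ⟨_, rfl⟩
  obtain ⟨n, N', htree'⟩ := tree_main q (2 * (e * M) + 2 * e + 1)
  obtain ⟨N, hN⟩ : ∃ N, N = max N' 1 := ⟨_, rfl⟩
  have htree : ∀ (D : ℕ → ℕ) (K : Type) [Field K] (t : (i : ℕ) → Fin (D i) → K),
      (∀ i, Function.Injective (t i)) → ∀ (p : Lf D (n + 1) → Fin q → ℕ)
      (P : Set (Lf D (n + 1))), Lg N (n + 1) P → ∃ (r : ℕ) (M' : Mt q)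
      (A B : Set (Lf D (n + 1))), A ⊆ P ∧ B ⊆ P ∧ 2 * (e * M) + 2 * e + 1 ≤ r ∧ Rel p M' A B ∧
        Ind t r A B := fun D K _ t ht p P hP =>
    htree' D K t ht p P (hP.mono (by rw [hN]; exact le_max_left _ _) (le_refl _))
  have hN1 : 1 ≤ N := by rw [hN]; exact le_max_right _ _
  obtain ⟨X, hX⟩ : ∃ X, X = 2 * ((n + 1) * N) + 1 := ⟨_, rfl⟩
  refine ⟨(n + 1) * X + 1, fun h hh => ?_⟩
  obtain ⟨j, rfl⟩ : ∃ j, h = (n + 1) * X + j + 1 := ⟨h - ((n + 1) * X + 1), by omega⟩
  obtain ⟨m, hm⟩ : ∃ m : ℕ → ℕ, m = fun i => X + if i = 0 then j else 0 := ⟨_, rfl⟩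
  obtain ⟨D, hD⟩ : ∃ D : ℕ → ℕ, D = fun i => 2 ^ m i := ⟨_, rfl⟩
  have hHt : ∀ i, Ht m (i + 1) = (i + 1) * X + j := by
    intro i
    induction i with
    | zero =>
      show 0 + m 0 = _
      rw [hm]
      simp
    | succ i ih =>
      show Ht m (i + 1) + m (i + 1) = _
      rw [ih, hm]
      simp only [Nat.succ_ne_zero, if_false, add_zero]
      ring
  have hh' : (n + 1) * X + j + 1 = Ht m (n + 1) + 1 := by rw [hHt]
  rw [hh']
  have hX1 : 1 ≤ X := by rw [hX]; exact Nat.le_add_left _ _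
  have hmX : ∀ i, X ≤ m i := by
    intro i
    rw [hm]
    exact Nat.le_add_right _ _
  have hm0 : ∀ i, m i ≠ 0 := fun i => by
    have := hmX i
    omega
  have hDX : ∀ i, X ≤ D i := fun i => by
    rw [hD]
    exact (hmX i).trans Nat.lt_two_pow_self.le
  have hDmax : ∀ i, D i ≤ 2 ^ (X + j) := by
    intro i
    rw [hD, hm]
    refine Nat.pow_le_pow_right (by norm_num) ?_
    show X + (if i = 0 then j else 0) ≤ X + j
    split_ifs
    · exact le_rfl
    · exact Nat.add_le_add_left (Nat.zero_le _) _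
  obtain ⟨C', hC'⟩ : ∃ C', C' = 2 ^ (q * 4 + 1) * (2 ^ Fintype.card (Lf D (n + 1)) *
    2 ^ Fintype.card (Lf D (n + 1))) := ⟨_, rfl⟩
  obtain ⟨k₀, hk₀⟩ := exists_prime_sq (max (2 ^ (X + j)) (C' * 4 ^ (e * M) * 4 ^ e))
  refine ⟨max k₀ 2, fun k hk => ?_⟩
  obtain ⟨p, hp, hp1, hp2, hp3⟩ := hk₀ k ((le_max_left _ _).trans hk)
  have hk2 : 2 ≤ k := (le_max_right _ _).trans hk
  have : Fact p.Prime := ⟨hp⟩
  obtain ⟨t, ht⟩ : ∃ t : (i : ℕ) → Fin (D i) → ZMod p,
    t = fun i (a : Fin (D i)) => ((a : ℕ) : ZMod p) := ⟨_, rfl⟩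
  have htinj : ∀ i, Function.Injective (t i) := by
    intro i a b hab
    rw [ht] at hab
    have h1 := (ZMod.natCast_eq_natCast_iff' _ _ _).1 hab
    have h2 := hDmax i
    have h3 := le_max_left (2 ^ (X + j)) (C' * 4 ^ (e * M) * 4 ^ e)
    rw [Nat.mod_eq_of_lt (by omega), Nat.mod_eq_of_lt (by omega)] at h1
    exact Fin.ext h1
  obtain ⟨eq⟩ : Nonempty ((i : ℕ) → Bp (m i) ≃ Fin (D i)) :=
    ⟨fun i => Fintype.equivFinOfCardEq (by rw [card_bp, hD])⟩
  obtain ⟨code⟩ : Nonempty (Option (ZMod p × ZMod p) ↪ Fin k) :=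
    Function.Embedding.nonempty_of_card_le (by
      rw [Fintype.card_option, Fintype.card_prod, ZMod.card, Fintype.card_fin]
      have : p * p = p ^ 2 := (sq p).symm
      omega)
  have hdec : ∀ v, Function.invFun code (code v) = v :=
    Function.leftInverse_invFun code.injective
  obtain ⟨dec, hdec'⟩ : ∃ dec, dec = Function.invFun code := ⟨_, rfl⟩
  rw [← hdec'] at hdec
  obtain ⟨one, hone⟩ : ∃ one : Fin k, one.val = 1 := ⟨⟨1, by omega⟩, rfl⟩
  obtain ⟨zero, hzero⟩ : ∃ zero : Fin k, zero.val = 0 := ⟨⟨0, by omega⟩, rfl⟩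
  obtain ⟨W, hW⟩ : ∃ W : (Lf D (n + 1) → ZMod p) → Var k (Ht m (n + 1) + 1) → Fin k,
    W = fun z => node (fun a _ => if (dec a).isSome then one else zero)
      (inst code dec eq t (n + 1) 0 z) fun _ => zero := ⟨_, rfl⟩
  have hWeval : ∀ z, eval (Ht m (n + 1) + 1) (W z) = if Chk t (n + 1) z then one else zero := by
    intro z
    rw [hW]
    show (if (dec (eval (Ht m (n + 1)) (inst code dec eq t (n + 1) 0 z))).isSome then one
      else zero) = _
    rw [eval_inst code dec eq t hdec hm0, hdec]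
    by_cases hz : Chk t (n + 1) z
    · rw [if_pos hz, if_pos hz]
      rfl
    · rw [if_neg hz, if_neg hz]
      rfl
  have hWbool : ∀ z, BoolRoot (Ht m (n + 1) + 1) (W z) := by
    intro z q
    rw [hW]
    show (if (dec q.1).isSome then one else zero).val ≤ 1
    split_ifs
    · exact hone.le
    · rw [hzero]
      exact Nat.zero_le _
  have hWinj : Function.Injective W := by
    intro z z' hz
    refine inst_inj code dec eq t code.injective (n + 1) 0 z z' ?_
    funext v
    have := congrFun hz (.inr (false, v))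
    rw [hW] at this
    exact this
  obtain ⟨pos, hpos⟩ : ∃ pos : Lf D (n + 1) → Var k (Ht m (n + 1) + 1),
    pos = fun x => .inr (false, lpos eq (n + 1) x) := ⟨_, rfl⟩
  have hposinj : Function.Injective pos := by
    intro x x' h3
    rw [hpos] at h3
    exact lpos_inj eq (n + 1) x x' (Prod.mk.inj (Sum.inr.inj h3)).2
  have hposleaf : ∀ x, isLeaf _ (pos x) = true := by
    intro x
    rw [hpos]
    exact isLeaf_lpos eq (n + 1) x
  have hdiff : ∀ z z' i, W z i ≠ W z' i → ∃ x, z x ≠ z' x ∧ i = pos x := by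
    intro z z' i hi
    rw [hW] at hi
    rcases i with q | ⟨b, i⟩
    · exact absurd rfl hi
    · cases b with
      | false =>
        obtain ⟨x, h5, h6⟩ := inst_diff code dec eq t (n + 1) 0 z z' i hi
        exact ⟨x, h6, by rw [h5, hpos]⟩
      | true => exact absurd rfl hi
  have hcard : Fintype.card (Lf D (n + 1)) = 2 ^ Ht m (n + 1) := card_lf eq (n + 1)
  obtain ⟨F, hF⟩ : ∃ F : Finset (Lf D (n + 1) → ZMod p), F = Finset.univ.filter fun z =>
    Chk t (n + 1) z := ⟨_, rfl⟩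
  refine ⟨F.image W, ?_, ?_, fun S B hsound => ?_⟩
  · refine Finset.Nonempty.image ⟨0, ?_⟩ W
    rw [hF]
    exact Finset.mem_filter.2 ⟨Finset.mem_univ _, Chk.zero⟩
  · intro x hx
    rw [Finset.mem_image] at hx
    obtain ⟨z, hz, rfl⟩ := hx
    rw [hF, Finset.mem_filter] at hz
    refine ⟨hWbool z, ?_⟩
    rw [hWeval, if_pos hz.2, hone]
  · have hs : ∀ z, B.Accepts (W z) → Chk t (n + 1) z := by
      intro z hz
      have h1 := hsound _ (hWbool z) hz
      rw [hWeval] at h1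
      by_contra hcon
      rw [if_neg hcon, hzero] at h1
      exact absurd h1 (by norm_num)
    have key := prog_lower (B := B) (w := W) (pos := pos) (N := N) (k := q)
      (H := 2 * (e * M) + 2 * e + 1) (t := t) (htree D (ZMod p) t htinj) hdiff hposinj hs
    have hgood : ∀ z, Cheap B r (W z) → Good B W pos N q z := by
      rintro z ⟨l, h1, h2, h3⟩
      refine ⟨l, h1, h2, ?_⟩
      by_contra hcon
      have h4 := Lg.dense hN1 (fun i _ => hDX i) _ hcon
      have h5 := large pos hposinj (isLeaf _) hposleaf (reads l) r (by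
        rw [hcard]
        refine h3.trans (le_of_eq ?_)
        rw [pow_succ, mul_comm (2 ^ _) 2])
      rw [← hq] at h5
      have h6 : (Finset.univ.filter fun x => (reads l).count (pos x) ≤ q).card =
          (Finset.univ.filter (· ∈ {x | (reads l).count (pos x) ≤ q})).card := by
        congr 1
      rw [h6] at h5
      have h7 : X * Fintype.card (Lf D (n + 1)) ≤
          2 * ((n + 1) * (N - 1)) * Fintype.card (Lf D (n + 1)) := by
        calc X * Fintype.card (Lf D (n + 1)) ≤ X * (2 * (Finset.univ.filter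
              (· ∈ {x | (reads l).count (pos x) ≤ q})).card) := Nat.mul_le_mul_left _ h5
          _ = 2 * (X * (Finset.univ.filter
              (· ∈ {x | (reads l).count (pos x) ≤ q})).card) := by ring
          _ ≤ 2 * ((n + 1) * (N - 1) * Fintype.card (Lf D (n + 1))) := Nat.mul_le_mul_left _ h4
          _ = _ := by ring
      have h8 : X ≤ 2 * ((n + 1) * (N - 1)) :=
        Nat.le_of_mul_le_mul_right h7 (by rw [hcard]; positivity)
      have h9 : (n + 1) * (N - 1) ≤ (n + 1) * N := Nat.mul_le_mul_left _ (Nat.sub_le _ _)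
      omega
    have hY : (F.image W).card = F.card := Finset.card_image_of_injective _ hWinj
    have hG : ((F.image W).filter fun x => Cheap B r x).card ≤
        (Finset.univ.filter fun z : Lf D (n + 1) → ZMod p => Chk t (n + 1) z ∧
          Good B W pos N q z).card := by
      have h1 : (F.image W).filter (fun x => Cheap B r x) ⊆
          (Finset.univ.filter fun z : Lf D (n + 1) → ZMod p => Chk t (n + 1) z ∧
          Good B W pos N q z).image W := by
        intro x hx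
        rw [Finset.mem_filter, Finset.mem_image] at hx
        obtain ⟨⟨z, hz, rfl⟩, hx⟩ := hx
        rw [hF, Finset.mem_filter] at hz
        rw [Finset.mem_image]
        exact ⟨z, Finset.mem_filter.2 ⟨Finset.mem_univ _, hz.2, hgood z hx⟩, rfl⟩
      exact (Finset.card_le_card h1).trans Finset.card_image_le
    rw [ZMod.card, ← hC', ← hM, ← hF] at key
    refine arith (p := p) (M := M) (C := C') B.start.pos (Finset.card_filter_le _ _) hp3
      (lt_of_le_of_lt (le_max_right _ _) hp1) ?_ ?_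
    · rw [hC']
      exact Nat.mul_pos (by positivity) (by positivity)
    · rw [hY]
      exact (Nat.mul_le_mul_right _ hG).trans key

end Pool.Agent.W985.RS
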