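import Pool.Agent.W985.RK.Ramsey

/-!
# Large subsets of the leaves of a tree
-/

namespace Pool.Agent.W985.RS

/-- The leaves of the tree of height `h` in which the nodes of height `i + 1` have `D i` children. -/
def Lf (D : ℕ → ℕ) : ℕ → Type
  | 0 => Unit
  | h + 1 => Fin (D h) × Lf D h

instance Lf.fintype (D : ℕ → ℕ) : (h : ℕ) → Fintype (Lf D h)
  | 0 => inferInstanceAs (Fintype Unit)
  | h + 1 => by
    have := Lf.fintype D h
    exact inferInstanceAs (Fintype (Fin (D h) × Lf D h))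

instance Lf.decEq (D : ℕ → ℕ) : (h : ℕ) → DecidableEq (Lf D h)
  | 0 => inferInstanceAs (DecidableEq Unit)
  | h + 1 => by
    have := Lf.decEq D h
    exact inferInstanceAs (DecidableEq (Fin (D h) × Lf D h))

/-- The leaf `x` of the `i`-th subtree. -/
def lf {D : ℕ → ℕ} {h : ℕ} (i : Fin (D h)) (x : Lf D h) : Lf D (h + 1) := (i, x)

theorem lf_inj {D : ℕ → ℕ} {h : ℕ} {i j : Fin (D h)} {x y : Lf D h} : lf i x = lf j y ↔ i = j ∧ x = y := by
  unfold lf
  exact Prod.mk_inj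

theorem Lf.cases' {D : ℕ → ℕ} {h : ℕ} : ∀ x : Lf D (h + 1), ∃ i y, x = lf i y := fun x => ⟨x.1, x.2, rfl⟩

/-- Large sets of leaves: they contain the leaves of a complete `d`-ary subtree. -/
def Lg {D : ℕ → ℕ} (d : ℕ) : (h : ℕ) → Set (Lf D h) → Prop
  | 0, P => () ∈ P
  | h + 1, P => ∃ s : Finset (Fin (D h)), d ≤ s.card ∧ ∀ i ∈ s, Lg d h {x | lf i x ∈ P}

variable {D : ℕ → ℕ}

theorem Lg.mono {d d' : ℕ} (hd : d' ≤ d) : ∀ {h : ℕ} {P Q : Set (Lf D h)}, P ⊆ Q → Lg d h P →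
    Lg d' h Q := by
  intro h
  induction h with
  | zero =>
    intro P Q hPQ hP
    exact hPQ hP
  | succ h ih =>
    rintro P Q hPQ ⟨s, hs, hP⟩
    exact ⟨s, hd.trans hs, fun i hi => ih (fun x hx => hPQ hx) (hP i hi)⟩

theorem Lg.full {d : ℕ} (hd : ∀ i, d ≤ D i) : ∀ h : ℕ, Lg d h (Set.univ : Set (Lf D h)) := by
  intro h
  induction h with
  | zero => exact Set.mem_univ _
  | succ h ih =>
    refine ⟨Finset.univ, by simpa using hd h, fun i _ => ?_⟩
    exact ih

/-- Large sets are partition regular. -/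
theorem Lg.part {e : ℕ} : ∀ {h : ℕ} {P P1 P2 : Set (Lf D h)}, P ⊆ P1 ∪ P2 → Lg (2 * e) h P →
    Lg e h P1 ∨ Lg e h P2 := by
  classical
  intro h
  induction h with
  | zero =>
    intro P P1 P2 hP h1
    exact hP h1
  | succ h ih =>
    rintro P P1 P2 hP ⟨s, hs, h1⟩
    have h2 : ∀ i ∈ s, Lg e h {x | lf i x ∈ P1} ∨ Lg e h {x | lf i x ∈ P2} := fun i hi =>
      ih (P := {x | lf i x ∈ P}) (fun x hx => hP hx) (h1 i hi)
    have h3 : s ⊆ (s.filter fun i => Lg e h {x | lf i x ∈ P1}) ∪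
        (s.filter fun i => Lg e h {x | lf i x ∈ P2}) := by
      intro i hi
      rw [Finset.mem_union, Finset.mem_filter, Finset.mem_filter]
      exact (h2 i hi).imp (fun h => ⟨hi, h⟩) fun h => ⟨hi, h⟩
    have h4 := (Finset.card_le_card h3).trans (Finset.card_union_le _ _)
    by_cases h5 : e ≤ (s.filter fun i => Lg e h {x | lf i x ∈ P1}).card
    · exact Or.inl ⟨_, h5, fun i hi => (Finset.mem_filter.1 hi).2⟩
    · have h6 : e ≤ (s.filter fun i => Lg e h {x | lf i x ∈ P2}).card := by omega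
      exact Or.inr ⟨_, h6, fun i hi => (Finset.mem_filter.1 hi).2⟩

/-- A threshold. -/
theorem Lg.thr {e h : ℕ} {P : Set (Lf D h)} (hP : Lg (4 * e) h P) (p : Lf D h → ℕ) :
    ∃ θ, Lg (2 * e) h {x | x ∈ P ∧ p x ≤ θ} ∧ Lg (2 * e) h {x | x ∈ P ∧ θ ≤ p x} := by
  classical
  have hex : ∃ θ, Lg (2 * e) h {x | x ∈ P ∧ p x ≤ θ} := by
    refine ⟨Finset.univ.sup p, hP.mono (by omega) fun x hx => ⟨hx, Finset.le_sup
      (Finset.mem_univ x)⟩⟩
  refine ⟨Nat.find hex, Nat.find_spec hex, ?_⟩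
  rcases Nat.eq_zero_or_pos (Nat.find hex) with h0 | h0
  · rw [h0]
    exact hP.mono (by omega) fun x hx => ⟨hx, Nat.zero_le _⟩
  · have h1 := Nat.find_min hex (m := Nat.find hex - 1) (by omega)
    have h2 : P ⊆ {x | x ∈ P ∧ p x ≤ Nat.find hex - 1} ∪ {x | x ∈ P ∧ Nat.find hex ≤ p x} := by
      intro x hx
      rcases Nat.lt_or_ge (p x) (Nat.find hex) with h3 | h3
      · exact Or.inl ⟨hx, by omega⟩
      · exact Or.inr ⟨hx, h3⟩
    have h3 := Lg.part (e := 2 * e) h2 (hP.mono (by omega) (le_refl _))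
    exact h3.resolve_left h1

/-- Pruning two trees such that the values of the two functions are separated or equal. -/
theorem Lg.sep {e h : ℕ} {P P' : Set (Lf D h)} (hP : Lg (4 * e) h P) (hP' : Lg (4 * e) h P')
    (p q : Lf D h → ℕ) : ∃ (Q Q' : Set (Lf D h)) (o : Ordering), Q ⊆ P ∧ Q' ⊆ P' ∧ Lg e h Q ∧
      Lg e h Q' ∧ ∀ x ∈ Q, ∀ y ∈ Q', compare (p x) (q y) = o := by
  obtain ⟨θ, h1, h2⟩ := hP.thr p
  obtain ⟨θ', h3, h4⟩ := hP'.thr q
  have m1 := fun {R : Set (Lf D h)} (hR : Lg (2 * e) h R) => hR.mono (show e ≤ 2 * e by omega)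
    (le_refl R)
  rcases lt_trichotomy θ θ' with h5 | h5 | h5
  · refine ⟨_, _, .lt, fun x hx => hx.1, fun x hx => hx.1, m1 h1, m1 h4, fun x hx y hy => ?_⟩
    exact compare_lt_iff_lt.2 (lt_of_le_of_lt hx.2 (lt_of_lt_of_le h5 hy.2))
  · subst h5
    have h6 : {x | x ∈ P ∧ θ ≤ p x} ⊆ {x | x ∈ P ∧ θ = p x} ∪ {x | x ∈ P ∧ θ < p x} := by
      intro x hx
      rcases Nat.eq_or_lt_of_le hx.2 with h | h
      · exact Or.inl ⟨hx.1, h⟩
      · exact Or.inr ⟨hx.1, h⟩
    have h7 : {x | x ∈ P' ∧ θ ≤ q x} ⊆ {x | x ∈ P' ∧ θ = q x} ∪ {x | x ∈ P' ∧ θ < q x} := by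
      intro x hx
      rcases Nat.eq_or_lt_of_le hx.2 with h | h
      · exact Or.inl ⟨hx.1, h⟩
      · exact Or.inr ⟨hx.1, h⟩
    rcases Lg.part h6 h2 with h8 | h8
    · rcases Lg.part h7 h4 with h9 | h9
      · refine ⟨_, _, .eq, fun x hx => hx.1, fun x hx => hx.1, h8, h9, fun x hx y hy => ?_⟩
        exact compare_eq_iff_eq.2 (hx.2.symm.trans hy.2)
      · refine ⟨_, _, .lt, fun x hx => hx.1, fun x hx => hx.1, m1 h1, h9, fun x hx y hy => ?_⟩
        exact compare_lt_iff_lt.2 (lt_of_le_of_lt hx.2 hy.2)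
    · refine ⟨_, _, .gt, fun x hx => hx.1, fun x hx => hx.1, h8, m1 h3, fun x hx y hy => ?_⟩
      exact compare_gt_iff_gt.2 (lt_of_le_of_lt hy.2 hx.2)
  · refine ⟨_, _, .gt, fun x hx => hx.1, fun x hx => hx.1, m1 h2, m1 h3, fun x hx y hy => ?_⟩
    exact compare_gt_iff_gt.2 (lt_of_le_of_lt hy.2 (lt_of_lt_of_le h5 hx.2))

/-- Pruning several trees for several pairs of functions. -/
theorem Lg.seps {e h k : ℕ} (p : Lf D (h + 1) → Fin k → ℕ) (s : Finset (Fin (D h))) :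
    ∀ (ts : List ((Fin (D h) × Fin (D h)) × (Fin k × Fin k))) (_ : ∀ t ∈ ts, t.1.1 ∈ s ∧ t.1.2 ∈ s ∧
      t.1.1 ≠ t.1.2) (P : Fin (D h) → Set (Lf D h)), (∀ i ∈ s, Lg (4 ^ ts.length * e) h (P i)) →
    ∃ Q : Fin (D h) → Set (Lf D h), (∀ i, Q i ⊆ P i) ∧ (∀ i ∈ s, Lg e h (Q i)) ∧
      ∀ t ∈ ts, ∃ o : Ordering, ∀ x ∈ Q t.1.1, ∀ y ∈ Q t.1.2,
        compare (p (lf t.1.1 x) t.2.1) (p (lf t.1.2 y) t.2.2) = o := by
  classical
  intro ts
  induction ts with
  | nil =>
    intro _ P hP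
    refine ⟨P, fun i => le_refl _, fun i hi => ?_, by simp⟩
    have := hP i hi
    simpa using this
  | cons t ts ih =>
    intro hts P hP
    obtain ⟨ht1, ht2, ht3⟩ := hts t List.mem_cons_self
    have hlen : 4 ^ (t :: ts).length * e = 4 * (4 ^ ts.length * e) := by
      rw [List.length_cons, pow_succ]
      ring
    rw [hlen] at hP
    obtain ⟨Q1, Q2, o, a1, a2, a3, a4, a5⟩ := Lg.sep (hP _ ht1) (hP _ ht2)
      (fun x => p (lf t.1.1 x) t.2.1) (fun y => p (lf t.1.2 y) t.2.2)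
    obtain ⟨Q, b1, b2, b3⟩ := ih (fun t' ht' => hts t' (List.mem_cons_of_mem _ ht'))
      (Function.update (Function.update P t.1.1 Q1) t.1.2 Q2) (by
        intro i hi
        by_cases h2 : i = t.1.2
        · subst h2
          rw [Function.update_self]
          exact a4
        · rw [Function.update_of_ne h2]
          by_cases h1 : i = t.1.1
          · subst h1
            rw [Function.update_self]
            exact a3
          · rw [Function.update_of_ne h1]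
            exact (hP i hi).mono (by omega) (le_refl _))
    have c1 : Q t.1.1 ⊆ Q1 := by
      have := b1 t.1.1
      rwa [Function.update_of_ne ht3, Function.update_self] at this
    have c2 : Q t.1.2 ⊆ Q2 := by
      have := b1 t.1.2
      rwa [Function.update_self] at this
    refine ⟨Q, fun i => ?_, b2, ?_⟩
    · by_cases h2 : i = t.1.2
      · subst h2
        exact c2.trans a2
      · by_cases h1 : i = t.1.1
        · subst h1
          exact c1.trans a1
        · have := b1 i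
          rwa [Function.update_of_ne h2, Function.update_of_ne h1] at this
    · intro t' ht'
      rw [List.mem_cons] at ht'
      rcases ht' with rfl | ht'
      · exact ⟨o, fun x hx y hy => a5 x (c1 hx) y (c2 hy)⟩
      · exact b3 t' ht'

end Pool.Agent.W985.RS
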