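import Pool.Agent.W985.RS.Code
import Pool.Agent.W985.RK.TreeLemma

/-!
# The tree lemma
-/

namespace Pool.Agent.W985.RS

open Pool.Agent.W985.RK (ramsey Mt)

/-- All values on `A` are related in the same way to all values on `B`. -/
def Rel {D : ℕ → ℕ} {h k : ℕ} (p : Lf D h → Fin k → ℕ) (M : Mt k) (A B : Set (Lf D h)) : Prop :=
  ∀ x ∈ A, ∀ y ∈ B, ∀ a b, compare (p x a) (p y b) = M a b

theorem tree_step {k n N R : ℕ}
    (hR : ∀ (α : Type) [LinearOrder α] (c : α → α → Mt k) (s : Finset α), R ≤ s.card →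
      ∃ (f : Fin 5 → α) (a : Mt k), StrictMono f ∧ (∀ i, f i ∈ s) ∧
        ∀ i j, i < j → c (f i) (f j) = a)
    (ih : ∀ (D : ℕ → ℕ) (K : Type) [Field K] (t : (i : ℕ) → Fin (D i) → K),
      (∀ i, Function.Injective (t i)) →
      ∀ (p : Lf D n → Fin k → ℕ) (P : Set (Lf D n)), Lg N n P →
        ∃ r : Mt k → ℕ, n ≤ ∑ M, r M ∧ ∀ M, ∃ A B : Set (Lf D n), A ⊆ P ∧ B ⊆ P ∧
          Rel p M A B ∧ Ind t (r M) A B)
    (D : ℕ → ℕ) (K : Type) [Field K] (t : (i : ℕ) → Fin (D i) → K)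
    (ht : ∀ i, Function.Injective (t i))
    (p : Lf D (n + 1) → Fin k → ℕ) (P : Set (Lf D (n + 1)))
    (hP : Lg (max R (4 ^ (R * R * (k * k)) * max N 2)) (n + 1) P) :
    ∃ r : Mt k → ℕ, n + 1 ≤ ∑ M, r M ∧ ∀ M, ∃ A B : Set (Lf D (n + 1)), A ⊆ P ∧ B ⊆ P ∧
      Rel p M A B ∧ Ind t (r M) A B := by
  classical
  obtain ⟨s, hs, hP⟩ := hP
  obtain ⟨s', hs', hcard⟩ := Finset.exists_subset_card_eq ((le_max_left _ _).trans hs)
  obtain ⟨ts, hts⟩ : ∃ ts : List ((Fin (D n) × Fin (D n)) × (Fin k × Fin k)),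
      ts = (((s' ×ˢ s').filter fun q => q.1 ≠ q.2) ×ˢ
        (Finset.univ : Finset (Fin k × Fin k))).toList := ⟨_, rfl⟩
  have hlen : ts.length ≤ R * R * (k * k) := by
    rw [hts, Finset.length_toList, Finset.card_product]
    refine Nat.mul_le_mul ?_ ?_
    · refine (Finset.card_filter_le _ _).trans ?_
      rw [Finset.card_product, hcard]
    · rw [Finset.card_univ, Fintype.card_prod, Fintype.card_fin]
  obtain ⟨Q, hQ1, hQ2, hQ3⟩ := Lg.seps (e := max N 2) p s' ts (by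
      intro q hq
      rw [hts, Finset.mem_toList, Finset.mem_product, Finset.mem_filter,
        Finset.mem_product] at hq
      exact ⟨hq.1.1.1, hq.1.1.2, hq.1.2⟩) (fun i => {x | lf i x ∈ P}) (by
      intro i hi
      refine (hP i (hs' hi)).mono ?_ (le_refl _)
      refine le_trans ?_ (le_max_right _ _)
      exact Nat.mul_le_mul_right _ (Nat.pow_le_pow_right (by norm_num) hlen))
  have hc : ∀ i j, ∃ M : Mt k, i ∈ s' → j ∈ s' → i ≠ j → ∀ x ∈ Q i, ∀ y ∈ Q j, ∀ a b,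
      compare (p (lf i x) a) (p (lf j y) b) = M a b := by
    intro i j
    by_cases hij : i ∈ s' ∧ j ∈ s' ∧ i ≠ j
    · have h1 : ∀ a b, ∃ o : Ordering, ∀ x ∈ Q i, ∀ y ∈ Q j,
          compare (p (lf i x) a) (p (lf j y) b) = o := by
        intro a b
        refine hQ3 ((i, j), (a, b)) ?_
        rw [hts, Finset.mem_toList, Finset.mem_product, Finset.mem_filter,
          Finset.mem_product]
        exact ⟨⟨⟨hij.1, hij.2.1⟩, hij.2.2⟩, Finset.mem_univ _⟩
      choose M hM using h1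
      exact ⟨M, fun _ _ _ x hx y hy a b => hM a b x hx y hy⟩
    · exact ⟨fun _ _ => .eq, fun h1 h2 h3 => absurd ⟨h1, h2, h3⟩ hij⟩
  choose c hc using hc
  obtain ⟨f, M0, hf1, hf2, hf3⟩ := hR (Fin (D n)) c s' hcard.ge
  have hrel : ∀ i j : Fin 5, i < j → ∀ x ∈ Q (f i), ∀ y ∈ Q (f j), ∀ a b,
      compare (p (lf (f i) x) a) (p (lf (f j) y) b) = M0 a b := by
    intro i j hij x hx y hy a b
    rw [hc _ _ (hf2 i) (hf2 j) (hf1 hij).ne x hx y hy, hf3 i j hij]
  have hne : ∀ i j : Fin 5, i ≠ j → f i ≠ f j := fun i j hij h => hij (hf1.injective h)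
  have hsub : ∀ i : Fin 5, cp (f i) (Q (f i)) ⊆ P := by
    rintro i x ⟨h1, h2⟩
    obtain ⟨l, y, rfl⟩ := Lf.cases' x
    have h1' : l = f i := h1
    subst h1'
    exact hQ1 _ h2
  have hlg : ∀ i : Fin 5, Lg 2 n (Q (f i)) := fun i =>
    (hQ2 _ (hf2 i)).mono (le_max_right _ _) (le_refl _)
  obtain ⟨r, hr1, hr2⟩ := ih D K t ht (fun x => p (lf (f 2) x)) (Q (f 2))
    ((hQ2 _ (hf2 2)).mono (le_max_left _ _) (le_refl _))
  refine ⟨fun M => r M + if M = M0 then 1 else 0, ?_, fun M => ?_⟩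
  · rw [Finset.sum_add_distrib, Finset.sum_ite_eq' Finset.univ M0 fun _ => 1,
      if_pos (Finset.mem_univ _)]
    omega
  · obtain ⟨A, B, hA, hB, hAB, hI⟩ := hr2 M
    have hA' : cp (f 2) A ⊆ cp (f 2) (Q (f 2)) := fun x hx => ⟨hx.1, hA hx.2⟩
    have hB' : cp (f 2) B ⊆ cp (f 2) (Q (f 2)) := fun x hx => ⟨hx.1, hB hx.2⟩
    have hrel' : Rel p M (cp (f 2) A) (cp (f 2) B) := by
      rintro x ⟨hx1, hx2⟩ y ⟨hy1, hy2⟩ a b
      obtain ⟨l, x, rfl⟩ := Lf.cases' x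
      obtain ⟨l', y, rfl⟩ := Lf.cases' y
      have hx1' : l = f 2 := hx1
      have hy1' : l' = f 2 := hy1
      subst hx1' hy1'
      exact hAB x hx2 y hy2 a b
    by_cases hM : M = M0
    · subst hM
      simp only [if_true]
      refine ⟨cp (f 2) A ∪ (cp (f 0) (Q (f 0)) ∪ cp (f 1) (Q (f 1))),
        cp (f 2) B ∪ (cp (f 3) (Q (f 3)) ∪ cp (f 4) (Q (f 4))), ?_, ?_, ?_, ?_⟩
      · exact Set.union_subset (hA'.trans (hsub 2)) (Set.union_subset (hsub 0) (hsub 1))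
      · exact Set.union_subset (hB'.trans (hsub 2)) (Set.union_subset (hsub 3) (hsub 4))
      · have key : ∀ i j : Fin 5, i < j → ∀ x ∈ cp (f i) (Q (f i)), ∀ y ∈ cp (f j) (Q (f j)),
            ∀ a b, compare (p x a) (p y b) = M a b := by
          rintro i j hij x ⟨hx1, hx2⟩ y ⟨hy1, hy2⟩ a b
          obtain ⟨l, x, rfl⟩ := Lf.cases' x
          obtain ⟨l', y, rfl⟩ := Lf.cases' y
          have hx1' : l = f i := hx1
          have hy1' : l' = f j := hy1
          subst hx1' hy1'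
          exact hrel i j hij x hx2 y hy2 a b
        rintro x (hx | hx | hx) y (hy | hy | hy)
        · exact hrel' x hx y hy
        · exact key 2 3 (by decide) x (hA' hx) y hy
        · exact key 2 4 (by decide) x (hA' hx) y hy
        · exact key 0 2 (by decide) x hx y (hB' hy)
        · exact key 0 3 (by decide) x hx y hy
        · exact key 0 4 (by decide) x hx y hy
        · exact key 1 2 (by decide) x hx y (hB' hy)
        · exact key 1 3 (by decide) x hx y hy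
        · exact key 1 4 (by decide) x hx y hy
      · exact Ind.step ht (hne 0 1 (by decide)) (hne 0 2 (by decide)) (hne 1 2 (by decide))
          (hne 3 4 (by decide)) (hne 3 2 (by decide)) (hne 4 2 (by decide))
          (hne 0 3 (by decide)) (hne 0 4 (by decide)) (hne 1 3 (by decide))
          (hne 1 4 (by decide)) (hlg 0) (hlg 1) (hlg 3) (hlg 4) hI
    · simp only [if_neg hM, add_zero]
      exact ⟨cp (f 2) A, cp (f 2) B, hA'.trans (hsub 2), hB'.trans (hsub 2), hrel', hI.lift _⟩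

theorem tree_all (k n : ℕ) : ∃ N : ℕ, ∀ (D : ℕ → ℕ) (K : Type) [Field K] (t : (i : ℕ) → Fin (D i) → K),
    (∀ i, Function.Injective (t i)) → ∀ (p : Lf D n → Fin k → ℕ) (P : Set (Lf D n)), Lg N n P →
      ∃ r : Mt k → ℕ, n ≤ ∑ M, r M ∧ ∀ M, ∃ A B : Set (Lf D n), A ⊆ P ∧ B ⊆ P ∧
        Rel p M A B ∧ Ind t (r M) A B := by
  induction n with
  | zero =>
    refine ⟨0, fun D K _ t _ p P _ => ⟨fun _ => 0, Nat.zero_le _, fun M => ⟨∅, ∅,
      Set.empty_subset _, Set.empty_subset _, fun x hx => absurd hx (Set.notMem_empty x),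
      Ind.zero⟩⟩⟩
  | succ n ih =>
    obtain ⟨N, hN⟩ := ih
    obtain ⟨R, hR⟩ := ramsey (Mt k) 5
    exact ⟨_, fun D K _ t ht p P hP => tree_step hR hN D K t ht p P hP⟩

/-- **The tree lemma.** -/
theorem tree_main (k H : ℕ) : ∃ n N : ℕ, ∀ (D : ℕ → ℕ) (K : Type) [Field K]
    (t : (i : ℕ) → Fin (D i) → K), (∀ i, Function.Injective (t i)) →
    ∀ (p : Lf D (n + 1) → Fin k → ℕ) (P : Set (Lf D (n + 1))), Lg N (n + 1) P →
      ∃ (r : ℕ) (M : Mt k) (A B : Set (Lf D (n + 1))), A ⊆ P ∧ B ⊆ P ∧ H ≤ r ∧ Rel p M A B ∧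
        Ind t r A B := by
  classical
  obtain ⟨N, hN⟩ := tree_all k (Fintype.card (Mt k) * H + 1)
  refine ⟨Fintype.card (Mt k) * H, N, fun D K _ t ht p P hP => ?_⟩
  obtain ⟨r, hr1, hr2⟩ := hN D K t ht p P hP
  obtain ⟨M, hM⟩ : ∃ M, H ≤ r M := by
    by_contra hcon
    push Not at hcon
    have h1 : ∑ M, r M < ∑ _M : Mt k, H := Finset.sum_lt_sum_of_nonempty
      ⟨fun _ _ => .eq, Finset.mem_univ _⟩ fun M _ => hcon M
    rw [Finset.sum_const, Finset.card_univ, smul_eq_mul] at h1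
    omega
  obtain ⟨A, B, hA, hB, hAB, hI⟩ := hr2 M
  exact ⟨r M, M, A, B, hA, hB, hM, hAB, hI⟩

end Pool.Agent.W985.RS
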